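import Pool.Agent.H50.UD.Defs

/-!
# UD-CoreA: the density as a measure; a convolution bound

`nu_exists`: take `ρ'` from `Pool.Agent.H75.LO.marginal` (file `Pool/Agent/H75/LO/QMa.lean`) and `ν = volume.withDensity ρ'`.
`hd` with `f = 1` gives `∫⁻ ρ' = n+1`. With `f` = indicator functions, `ν = Σ_i (mu ψ).map (fun ω => ω i)` (`Measure.ext`;
`mu ψ` is a probability measure by `mu_prob`), so `∫ f dν = Σ_i ∫ f(ω i) dμ` for bounded measurable `f`
(`integral_finset_sum_measure`, `integral_map`, `integral_finset_sum`).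

`young2`: `2ab ≤ a² + b²` in `ℝ≥0∞`, so `∫∫ρ(x)ρ(y)V(x-y) ≤ 1/2 ∫∫(ρ(x)²+ρ(y)²)V(x-y)`, Tonelli and translation
invariance (`lintegral_sub_right_eq_self`, `lintegral_sub_left_eq_self`).
-/

open MeasureTheory Set
open scoped ENNReal

namespace Pool.Agent.H50.UD

open Pool.Agent.H75.LO

theorem nu_exists {q n : ℕ} {ψ : Wave q (n + 1)} (h : IsState ψ) :
    ∃ ρ' : E3 → ℝ≥0∞, Measurable ρ' ∧ (∀ᵐ x : E3, ρ' x = ENNReal.ofReal (rho ψ x)) ∧
      ∫⁻ x, ρ' x = ENNReal.ofReal ((n : ℝ) + 1) ∧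
      ∀ f : E3 → ℝ, Measurable f → (∃ C, ∀ x, |f x| ≤ C) →
        ∫ x, f x ∂(volume.withDensity ρ') = ∫ ω, ∑ i, f (ω i) ∂(mu ψ) := by
  obtain ⟨ρ', hm, hae, hd⟩ := marginal h
  have hpr := mu_prob h
  refine ⟨ρ', hm, hae, ?_, ?_⟩
  · have h1 := hd (fun _ => 1) measurable_const
    simp only [lintegral_const, measure_univ, mul_one, one_mul, Finset.sum_const, Finset.card_univ,
      Fintype.card_fin, nsmul_eq_mul] at h1
    rw [← h1, ENNReal.ofReal_add (Nat.cast_nonneg n) zero_le_one, ENNReal.ofReal_natCast,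
      ENNReal.ofReal_one]
    push_cast
    rfl
  · have hmeas : volume.withDensity ρ' =
        ∑ i : Fin (n + 1), (mu ψ).map (fun ω : Fin (n + 1) → E3 => ω i) := by
      ext s hs
      have h1 := hd (s.indicator fun _ => 1) (measurable_const.indicator hs)
      rw [withDensity_apply _ hs, Measure.finsetSum_apply]
      have e1 : ∫⁻ x, s.indicator (fun _ => (1 : ℝ≥0∞)) x * ρ' x = ∫⁻ x in s, ρ' x := by
        rw [← lintegral_indicator hs]
        refine lintegral_congr fun x => ?_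
        by_cases hx : x ∈ s
        · simp [hx]
        · simp [hx]
      rw [← e1, ← h1]
      refine Finset.sum_congr rfl fun i _ => ?_
      have hs' : MeasurableSet ((fun ω : Fin (n + 1) → E3 => ω i) ⁻¹' s) :=
        (measurable_pi_apply i) hs
      rw [Measure.map_apply (measurable_pi_apply i) hs]
      have e2 : ∀ x : Fin (n + 1) → E3, s.indicator (fun _ => (1 : ℝ≥0∞)) (x i) =
          ((fun ω : Fin (n + 1) → E3 => ω i) ⁻¹' s).indicator (fun _ => (1 : ℝ≥0∞)) x := by
        intro x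
        rfl
      simp only [e2]
      rw [lintegral_indicator hs', setLIntegral_const, one_mul]
    rintro f hf ⟨C, hC⟩
    have hint : ∀ (i : Fin (n + 1)), Integrable (fun ω : Fin (n + 1) → E3 => f (ω i)) (mu ψ) := by
      intro i
      refine Integrable.of_bound ((hf.comp (measurable_pi_apply i)).aestronglyMeasurable) C ?_
      exact Filter.Eventually.of_forall fun ω => by
        rw [Real.norm_eq_abs]
        exact hC _
    rw [hmeas, integral_finsetSum_measure, integral_finsetSum _ fun i _ => hint i]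
    · refine Finset.sum_congr rfl fun i _ => ?_
      exact integral_map (measurable_pi_apply i).aemeasurable hf.aestronglyMeasurable
    · intro i _
      have : IsProbabilityMeasure ((mu ψ).map (fun ω : Fin (n + 1) → E3 => ω i)) :=
        Measure.isProbabilityMeasure_map (measurable_pi_apply i).aemeasurable
      refine Integrable.of_bound hf.aestronglyMeasurable C ?_
      exact Filter.Eventually.of_forall fun ω => by
        rw [Real.norm_eq_abs]
        exact hC _

theorem CoreA_amgm (a b : ℝ≥0∞) : 2 * (a * b) ≤ a ^ 2 + b ^ 2 := by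
  wlog hab : a ≤ b generalizing a b with H
  · have := H b a (le_of_not_ge hab)
    rwa [mul_comm b a, add_comm] at this
  · obtain ⟨c, rfl⟩ := exists_add_of_le hab
    calc 2 * (a * (a + c)) ≤ 2 * (a * (a + c)) + c ^ 2 := le_self_add
      _ = a ^ 2 + (a + c) ^ 2 := by ring

theorem young2 {ρ V : E3 → ℝ≥0∞} (hρ : Measurable ρ) (hV : Measurable V) :
    ∫⁻ p : E3 × E3, ρ p.1 * ρ p.2 * V (p.1 - p.2) ≤ (∫⁻ x, ρ x ^ 2) * ∫⁻ x, V x := by
  have hVs : Measurable fun p : E3 × E3 => V (p.1 - p.2) :=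
    hV.comp (measurable_fst.sub measurable_snd)
  have m1 : Measurable fun p : E3 × E3 => ρ p.1 ^ 2 * V (p.1 - p.2) :=
    ((hρ.comp measurable_fst).pow_const 2).mul hVs
  have m2 : Measurable fun p : E3 × E3 => ρ p.2 ^ 2 * V (p.1 - p.2) :=
    ((hρ.comp measurable_snd).pow_const 2).mul hVs
  have e1 : ∫⁻ p : E3 × E3, ρ p.1 ^ 2 * V (p.1 - p.2) = (∫⁻ x, ρ x ^ 2) * ∫⁻ x, V x := by
    rw [Measure.volume_eq_prod, lintegral_prod _ m1.aemeasurable]
    have : ∀ x : E3, ∫⁻ y : E3, ρ x ^ 2 * V (x - y) = ρ x ^ 2 * ∫⁻ y, V y := by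
      intro x
      have hm : Measurable fun y : E3 => V (x - y) := hV.comp (measurable_id.const_sub x)
      rw [lintegral_const_mul _ hm, lintegral_sub_left_eq_self V x]
    simp only [this]
    rw [lintegral_mul_const _ (hρ.pow_const 2)]
  have e2 : ∫⁻ p : E3 × E3, ρ p.2 ^ 2 * V (p.1 - p.2) = (∫⁻ x, ρ x ^ 2) * ∫⁻ x, V x := by
    rw [Measure.volume_eq_prod, lintegral_prod_symm _ m2.aemeasurable]
    have : ∀ y : E3, ∫⁻ x : E3, ρ y ^ 2 * V (x - y) = ρ y ^ 2 * ∫⁻ x, V x := by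
      intro y
      have hm : Measurable fun x : E3 => V (x - y) := hV.comp (measurable_id.sub_const y)
      rw [lintegral_const_mul _ hm, lintegral_sub_right_eq_self V y]
    simp only [this]
    rw [lintegral_mul_const _ (hρ.pow_const 2)]
  have h2 : 2 * ∫⁻ p : E3 × E3, ρ p.1 * ρ p.2 * V (p.1 - p.2) ≤
      2 * ((∫⁻ x, ρ x ^ 2) * ∫⁻ x, V x) := by
    have m0 : Measurable fun p : E3 × E3 => ρ p.1 * ρ p.2 * V (p.1 - p.2) :=
      ((hρ.comp measurable_fst).mul (hρ.comp measurable_snd)).mul hVs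
    rw [← lintegral_const_mul _ m0]
    calc ∫⁻ p : E3 × E3, 2 * (ρ p.1 * ρ p.2 * V (p.1 - p.2))
        ≤ ∫⁻ p : E3 × E3, (ρ p.1 ^ 2 * V (p.1 - p.2) + ρ p.2 ^ 2 * V (p.1 - p.2)) := by
          refine lintegral_mono fun p => ?_
          show 2 * (ρ p.1 * ρ p.2 * V (p.1 - p.2)) ≤ _
          rw [← mul_assoc, ← add_mul]
          gcongr
          exact CoreA_amgm _ _
      _ = 2 * ((∫⁻ x, ρ x ^ 2) * ∫⁻ x, V x) := by
          rw [lintegral_add_left m1, e1, e2, two_mul]
  exact (ENNReal.mul_le_mul_iff_right two_ne_zero ENNReal.ofNat_ne_top).1 h2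

end Pool.Agent.H50.UD
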