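import Pool.Agent.H50.UD.Psd
import Pool.Agent.H50.UD.CoreA

/-!
# UD-Core: the linear programming principle

A finite positive measure `κ` on `ℝ³` with `F(x) = ∫ cos⟨k,x⟩ dκ ≤ 1/|x|` gives
`I_ψ ≥ -½ ( (∫(1/|x| - F)) ∫ρ² + F(0) N )`.
-/

open MeasureTheory Set
open scoped ENNReal

namespace Pool.Agent.H50.UD

open Pool.Agent.H75.LO

/-- `F(x) = ∫ cos⟨k,x⟩ dκ(k)` -/
noncomputable def FF (κ : Measure E3) (x : E3) : ℝ := ∫ k, Real.cos (inner ℝ k x) ∂κ

theorem FF_cont (κ : Measure E3) [IsFiniteMeasure κ] : Continuous (FF κ) := by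
  unfold FF
  refine continuous_of_dominated (bound := fun _ => 1) ?_ ?_ ?_ ?_
  · intro x
    exact (by fun_prop : Continuous fun k : E3 => Real.cos (inner ℝ k x)).aestronglyMeasurable
  · intro x
    exact Filter.Eventually.of_forall fun k => by
      rw [Real.norm_eq_abs]; exact Real.abs_cos_le_one _
  · exact integrable_const _
  · exact Filter.Eventually.of_forall fun k => by fun_prop

theorem FF_bdd (κ : Measure E3) [IsFiniteMeasure κ] (x : E3) : |FF κ x| ≤ κ.real univ := by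
  unfold FF
  rw [← Real.norm_eq_abs]
  refine (norm_integral_le_of_norm_le_const (C := 1)
    (Filter.Eventually.of_forall fun k => ?_)).trans (by rw [one_mul])
  rw [Real.norm_eq_abs]; exact Real.abs_cos_le_one _

theorem FF_zero (κ : Measure E3) [IsFiniteMeasure κ] : FF κ 0 = κ.real univ := by
  unfold FF
  simp

theorem coulomb_mu {q n : ℕ} {ψ : Wave q (n + 1)} (h : Admissible ψ) :
    Integrable (fun ω => 2 * coulomb ω) (mu ψ) ∧ ∫ ω, 2 * coulomb ω ∂(mu ψ) = 2 * interaction ψ := by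
  have hI : 0 ≤ interaction ψ := by
    unfold interaction
    exact Finset.sum_nonneg fun σ _ => integral_nonneg fun x =>
      mul_nonneg (qmb_coulomb_nonneg x) (sq_nonneg _)
  have hac : mu ψ ≪ volume := withDensity_absolutelyContinuous _ _
  have h1 : ∫⁻ ω, ENNReal.ofReal (2 * coulomb ω) ∂(mu ψ) = ENNReal.ofReal (2 * interaction ψ) := by
    rw [← qmb_inter h]
    refine lintegral_congr_ae ?_
    have := hac.ae_le (qmb_pair (N := n + 1))
    filter_upwards [this] with ω hω
    exact hω.symm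
  have hm : Measurable (fun ω : Fin (n + 1) → E3 => 2 * coulomb ω) := by
    unfold coulomb
    refine Measurable.const_mul ?_ _
    refine Finset.measurable_fun_sum _ fun i _ => Finset.measurable_fun_sum _ fun j _ => ?_
    exact (((measurable_pi_apply i).sub (measurable_pi_apply j)).norm).inv
  have hnn : ∀ ω : Fin (n + 1) → E3, 0 ≤ 2 * coulomb ω := fun ω =>
    mul_nonneg (by norm_num) (qmb_coulomb_nonneg ω)
  refine ⟨⟨hm.aestronglyMeasurable, ?_⟩, ?_⟩
  · rw [hasFiniteIntegral_iff_ofReal (Filter.Eventually.of_forall hnn), h1]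
    exact ENNReal.ofReal_lt_top
  · rw [integral_eq_lintegral_of_nonneg_ae (Filter.Eventually.of_forall hnn)
      hm.aestronglyMeasurable, h1, ENNReal.toReal_ofReal (by positivity)]

theorem rhs_bound {q n : ℕ} {ψ : Wave q (n + 1)} (h : Admissible ψ)
    (κ : Measure E3) [IsFiniteMeasure κ]
    (hle : ∀ x : E3, x ≠ 0 → FF κ x ≤ ‖x‖⁻¹) :
    ∫ ω, ∑ i, ∑ j, FF κ (ω i - ω j) ∂(mu ψ) ≤ ((n : ℝ) + 1) * κ.real univ + 2 * interaction ψ := by
  haveI := mu_prob h.state
  obtain ⟨hi, hv⟩ := coulomb_mu h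
  have hac : mu ψ ≪ volume := withDensity_absolutelyContinuous _ _
  have hne : ∀ᵐ x ∂(mu ψ), ∀ i j : Fin (n + 1), i ≠ j → x i ≠ x j := by
    suffices hs : ∀ᵐ x : Fin (n + 1) → E3, ∀ i j : Fin (n + 1), i ≠ j → x i ≠ x j from
      hac.ae_le hs
    rw [ae_all_iff]
    intro i
    rw [ae_all_iff]
    intro j
    by_cases hij : i = j
    · exact Filter.Eventually.of_forall fun x h => absurd hij h
    · filter_upwards [qmb_ae_ne i j hij] with x hx _
      exact hx
  have hi2 : Integrable (fun ω : Fin (n + 1) → E3 => ((n : ℝ) + 1) * κ.real univ + 2 * coulomb ω)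
      (mu ψ) := (integrable_const _).add hi
  have e1 : ∫ ω, (((n : ℝ) + 1) * κ.real univ + 2 * coulomb ω) ∂(mu ψ)
      = ((n : ℝ) + 1) * κ.real univ + 2 * interaction ψ := by
    rw [integral_add (integrable_const _) hi, hv]
    simp
  rw [← e1]
  refine integral_mono_ae ?_ hi2 ?_
  · refine integrable_finset_sum _ fun i _ => integrable_finset_sum _ fun j _ => ?_
    refine Integrable.of_bound (C := κ.real univ) ?_ (Filter.Eventually.of_forall fun ω => ?_)
    · exact ((FF_cont κ).measurable.comp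
        ((measurable_pi_apply i).sub (measurable_pi_apply j))).aestronglyMeasurable
    · rw [Real.norm_eq_abs]; exact FF_bdd κ _
  · filter_upwards [hne] with ω hω
    have h1 : ∀ i : Fin (n + 1), ∑ j, FF κ (ω i - ω j) ≤
        κ.real univ + ∑ j ∈ Finset.univ.erase i, ‖ω i - ω j‖⁻¹ := by
      intro i
      rw [← Finset.add_sum_erase _ _ (Finset.mem_univ i), sub_self, FF_zero]
      refine add_le_add le_rfl (Finset.sum_le_sum fun j hj => ?_)
      exact hle _ (sub_ne_zero.2 (hω i j (Ne.symm (Finset.ne_of_mem_erase hj))))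
    calc ∑ i, ∑ j, FF κ (ω i - ω j)
        ≤ ∑ i : Fin (n + 1), (κ.real univ + ∑ j ∈ Finset.univ.erase i, ‖ω i - ω j‖⁻¹) :=
          Finset.sum_le_sum fun i _ => h1 i
      _ = ((n : ℝ) + 1) * κ.real univ + 2 * coulomb ω := by
          rw [Finset.sum_add_distrib,
            qmb_sum_sym (fun i j => ‖ω i - ω j‖⁻¹) (fun i j => by rw [norm_sub_rev])]
          simp [coulomb]

/-- the linear programming principle -/
theorem core {q n : ℕ} {ψ : Wave q (n + 1)} (h : Admissible ψ)
    (h2 : Integrable (fun x => rho ψ x ^ 2))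
    (κ : Measure E3) [IsFiniteMeasure κ]
    (hle : ∀ x : E3, x ≠ 0 → FF κ x ≤ ‖x‖⁻¹) {v : ℝ} (hv : 0 ≤ v)
    (hV : ∫⁻ x : E3, ENNReal.ofReal (‖x‖⁻¹ - FF κ x) ≤ ENNReal.ofReal v) :
    -(v * (∫ x, rho ψ x ^ 2) + ((n : ℝ) + 1) * κ.real univ) / 2 ≤ indirect ψ := by
  obtain ⟨ρ', hρm, hρ', hmass, hν⟩ := nu_exists h.state
  haveI := mu_prob h.state
  haveI hfin : IsFiniteMeasure (volume.withDensity ρ') := by
    refine ⟨?_⟩
    rw [withDensity_apply _ MeasurableSet.univ, Measure.restrict_univ, hmass]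
    exact ENNReal.ofReal_lt_top
  have hρi : Integrable (rho ψ) := by
    have hm : AEStronglyMeasurable (rho ψ) volume := by
      have : (fun x => (ρ' x).toReal) =ᵐ[volume] rho ψ := by
        filter_upwards [hρ'] with x hx
        rw [hx, ENNReal.toReal_ofReal (rho_nonneg ψ x)]
      exact (hρm.ennreal_toReal.aestronglyMeasurable).congr this
    refine ⟨hm, ?_⟩
    rw [hasFiniteIntegral_iff_ofReal (Filter.Eventually.of_forall fun x => rho_nonneg ψ x)]
    have : ∫⁻ x, ENNReal.ofReal (rho ψ x) = ∫⁻ x, ρ' x := by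
      refine lintegral_congr_ae ?_
      filter_upwards [hρ'] with x hx
      exact hx.symm
    rw [this, hmass]
    exact ENNReal.ofReal_lt_top
  have hltop : ∀ᵐ x : E3, ρ' x < ∞ := by
    filter_upwards [hρ'] with x hx
    rw [hx]
    exact ENNReal.ofReal_lt_top
  -- the two parts of the direct energy
  have hprod : Integrable (fun p : E3 × E3 => rho ψ p.1 * rho ψ p.2) := by
    rw [Measure.volume_eq_prod]
    exact hρi.mul_prod hρi
  have hG : Integrable (fun p : E3 × E3 => rho ψ p.1 * rho ψ p.2 * FF κ (p.1 - p.2)) := by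
    refine hprod.mul_bdd (c := κ.real univ) ?_ (Filter.Eventually.of_forall fun p => ?_)
    · exact ((FF_cont κ).measurable.comp (measurable_fst.sub measurable_snd)).aestronglyMeasurable
    · rw [Real.norm_eq_abs]; exact FF_bdd κ _
  have hH : Integrable (fun p : E3 × E3 =>
      rho ψ p.1 * rho ψ p.2 * (‖p.1 - p.2‖⁻¹ - FF κ (p.1 - p.2))) := by
    refine (h.direct.sub hG).congr (Filter.Eventually.of_forall fun p => ?_)
    simp only [Pi.sub_apply]
    ring
  have hD : 2 * directEnergy (rho ψ) =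
      (∫ p : E3 × E3, rho ψ p.1 * rho ψ p.2 * FF κ (p.1 - p.2)) +
      ∫ p : E3 × E3, rho ψ p.1 * rho ψ p.2 * (‖p.1 - p.2‖⁻¹ - FF κ (p.1 - p.2)) := by
    rw [← integral_add hG hH]
    unfold directEnergy
    rw [← mul_assoc]
    norm_num
    refine integral_congr_ae (Filter.Eventually.of_forall fun p => ?_)
    show rho ψ p.1 * rho ψ p.2 * ‖p.1 - p.2‖⁻¹ = rho ψ p.1 * rho ψ p.2 * FF κ (p.1 - p.2) +
      rho ψ p.1 * rho ψ p.2 * (‖p.1 - p.2‖⁻¹ - FF κ (p.1 - p.2))
    ring
  have hG2 : (∫ p : E3 × E3, rho ψ p.1 * rho ψ p.2 * FF κ (p.1 - p.2))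
      ≤ ((n : ℝ) + 1) * κ.real univ + 2 * interaction ψ := by
    refine le_trans (le_of_eq ?_) ((psd_cos (mu ψ)
      (fun (i : Fin (n + 1)) (x : Fin (n + 1) → E3) => x i) (fun i => measurable_pi_apply i) κ
      (volume.withDensity ρ') hν).trans (rhs_bound h κ hle))
    rw [Measure.volume_eq_prod] at hG ⊢
    rw [integral_prod _ hG]
    have e1 : ∀ f : E3 → ℝ, ∫ x, f x ∂(volume.withDensity ρ') = ∫ x, rho ψ x * f x := by
      intro f
      rw [integral_withDensity_eq_integral_toReal_smul hρm hltop]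
      refine integral_congr_ae ?_
      filter_upwards [hρ'] with x hx
      rw [hx, ENNReal.toReal_ofReal (rho_nonneg ψ x), smul_eq_mul]
    rw [e1]
    refine integral_congr_ae (Filter.Eventually.of_forall fun x => ?_)
    simp only
    rw [e1, ← integral_const_mul]
    refine integral_congr_ae (Filter.Eventually.of_forall fun y => ?_)
    show rho ψ x * rho ψ y * FF κ (x - y) = rho ψ x * (rho ψ y * FF κ (x - y))
    ring
  have hρ2 : 0 ≤ ∫ x, rho ψ x ^ 2 := integral_nonneg fun x => sq_nonneg _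
  have hH2 : (∫ p : E3 × E3, rho ψ p.1 * rho ψ p.2 * (‖p.1 - p.2‖⁻¹ - FF κ (p.1 - p.2)))
      ≤ v * ∫ x, rho ψ x ^ 2 := by
    rw [integral_eq_lintegral_pos_part_sub_lintegral_neg_part hH]
    have h3 : ∫⁻ p : E3 × E3, ENNReal.ofReal
        (rho ψ p.1 * rho ψ p.2 * (‖p.1 - p.2‖⁻¹ - FF κ (p.1 - p.2)))
        ≤ ENNReal.ofReal (v * ∫ x, rho ψ x ^ 2) := by
      have hVm : Measurable (fun x : E3 => ENNReal.ofReal (‖x‖⁻¹ - FF κ x)) :=
        ENNReal.measurable_ofReal.comp (measurable_norm.inv.sub (FF_cont κ).measurable)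
      have h4 := young2 hρm hVm
      have h5 : ∫⁻ p : E3 × E3, ENNReal.ofReal
          (rho ψ p.1 * rho ψ p.2 * (‖p.1 - p.2‖⁻¹ - FF κ (p.1 - p.2)))
          = ∫⁻ p : E3 × E3, ρ' p.1 * ρ' p.2 * ENNReal.ofReal (‖p.1 - p.2‖⁻¹ - FF κ (p.1 - p.2)) := by
        have ha : ∀ᵐ p : E3 × E3, ρ' p.1 = ENNReal.ofReal (rho ψ p.1) := by
          rw [Measure.volume_eq_prod]
          exact Measure.quasiMeasurePreserving_fst.ae hρ'
        have hb : ∀ᵐ p : E3 × E3, ρ' p.2 = ENNReal.ofReal (rho ψ p.2) := by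
          rw [Measure.volume_eq_prod]
          exact Measure.quasiMeasurePreserving_snd.ae hρ'
        refine lintegral_congr_ae ?_
        filter_upwards [ha, hb] with p h6 h7
        rw [h6, h7, ENNReal.ofReal_mul (mul_nonneg (rho_nonneg ψ _) (rho_nonneg ψ _)),
          ENNReal.ofReal_mul (rho_nonneg ψ _)]
      have h8 : ∫⁻ x, ρ' x ^ 2 = ENNReal.ofReal (∫ x, rho ψ x ^ 2) := by
        rw [ofReal_integral_eq_lintegral_ofReal h2 (Filter.Eventually.of_forall fun x => sq_nonneg _)]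
        refine lintegral_congr_ae ?_
        filter_upwards [hρ'] with x hx
        rw [hx, ENNReal.ofReal_pow (rho_nonneg ψ x)]
      rw [h5]
      refine h4.trans ?_
      rw [h8, mul_comm v, ENNReal.ofReal_mul hρ2]
      exact mul_le_mul' le_rfl hV
    have h9 := ENNReal.toReal_mono ENNReal.ofReal_ne_top h3
    rw [ENNReal.toReal_ofReal (mul_nonneg hv hρ2)] at h9
    have h10 : 0 ≤ (∫⁻ p : E3 × E3, ENNReal.ofReal
        (-(rho ψ p.1 * rho ψ p.2 * (‖p.1 - p.2‖⁻¹ - FF κ (p.1 - p.2))))).toReal :=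
      ENNReal.toReal_nonneg
    linarith
  unfold indirect
  linarith

end Pool.Agent.H50.UD
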