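import Pool.Agent.H75.LO.QMb

/-!
# UD: a linear programming certificate for the indirect Coulomb energy

* `Q τ = 1 + τ S(τ) ≥ 0` polynomial of degree 8;
* `wt k = β (2π)^{-3/2} (|k|⁻² + S(|k|²)) e^{-|k|²/2} = (2π)⁻³ 4π |k|⁻² e^{-|k|²/2} Q(|k|²) ≥ 0`;
* `W r = β (∫_0^1 e^{-r²w²/2} dw + e^{-r²/2} Π(r²/2))`, with `W ‖x‖ = ∫ wt(k) cos⟨k,x⟩ dk`;
* `β = √(2/π)`.
-/

open MeasureTheory Set
open scoped ENNReal

namespace Pool.Agent.H50.UD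

open Pool.Agent.H75.LO (E3)

/-- `β = √(2/π)` -/
noncomputable def bt : ℝ := Real.sqrt (2 / Real.pi)

/-- `S(τ) = Σ_{j<8} c_{j+1} τ^j` -/
noncomputable def S (τ : ℝ) : ℝ :=
  (450745513 - 286448416 * τ - 114724765 * τ ^ 2 + 11994376 * τ ^ 3 - 1959025 * τ ^ 4
    + 407920 * τ ^ 5 - 26075 * τ ^ 6 + 500 * τ ^ 7) / 27990001524

/-- `Π(z) = Σ_{j<8} c_{j+1} p_j(z)` -/
noncomputable def Pz (z : ℝ) : ℝ :=
  (-247786145 + 128935918 * z + 118803656 * z ^ 2 - 23954552 * z ^ 3 + 8332800 * z ^ 4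
    - 3372560 * z ^ 5 + 422800 * z ^ 6 - 16000 * z ^ 7) / 6997500381

/-- the weight in Fourier space -/
noncomputable def wt (k : E3) : ℝ :=
  bt * (2 * Real.pi) ^ (-(3 / 2) : ℝ) * ((‖k‖ ^ 2)⁻¹ + S (‖k‖ ^ 2)) * Real.exp (-(‖k‖ ^ 2 / 2))

/-- the kernel in physical space, as a function of the distance -/
noncomputable def W (r : ℝ) : ℝ :=
  bt * ((∫ w in (0 : ℝ)..1, Real.exp (-(r ^ 2 / 2 * w ^ 2)))
    + Real.exp (-(r ^ 2 / 2)) * Pz (r ^ 2 / 2))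

/-- `A = 1 - 2 c_1` -/
noncomputable def cA : ℝ := 14362943 / 14840934

/-- `B = 1 + Π(0)` -/
noncomputable def cB : ℝ := 6749714236 / 6997500381

end Pool.Agent.H50.UD
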