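import Pool.Agent.H50.UD.Defs

/-!
# UD-Jm: Fourier transforms of `|k|^{2m} e^{-t|k|²/2}` on `ℝ³`

Polynomials `pm`: `pm 0 = 1`, `pm (m+1) = (3+2m-2X) pm m + 2X (pm m)'`.

`Jm_int`: `|k|^{2m} e^{-t|k|²/2} ≤ C e^{-t|k|²/4}` with `C = sup_{s≥0} s^m e^{-ts/4}`
(`s^m/m! ≤ (4/t)^m e^{ts/4}`: `Real.pow_div_factorial_le_exp`), and
`e^{-b|k|²}` is integrable (`GaussianFourier.integrable_cexp_neg_mul_sq_norm_add` with `c = 0`, or because its integral
is nonzero by `GaussianFourier.integral_rexp_neg_mul_sq_norm`, as in `gauA_lintegral` in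
`Pool/Agent/H75/LO/GauA.lean`).

`Jm` by induction on `m`, for all `t > 0` at once.
* `m = 0`: real part of `GaussianFourier.integral_cexp_neg_mul_sq_norm_add` (or `..._of_euclideanSpace`) with `b = t/2`,
  `c = I`: `∫ e^{-t|k|²/2 + i⟨k,x⟩} dk = (2π/t)^{3/2} e^{-|x|²/2t}`. Take real parts (`integral_re`,
  `Complex.exp_re`, `cos`).
* step: `d/dt ∫ |k|^{2m} e^{-t|k|²/2} cos⟨k,x⟩ dk = -1/2 ∫ |k|^{2(m+1)} e^{-t|k|²/2} cos⟨k,x⟩ dk`
  (`hasDerivAt_integral_of_dominated_loc_of_deriv_le` on the ball/interval of radius `t/2` around `t`, bound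
  `|k|^{2m+2} e^{-(t/2)|k|²/2}`). The right-hand side of `Jm` has derivative `-1/2` times the formula for `m+1`:
  with `z = a/t`, `a = |x|²/2`, `d/dt [e^{-z} t^{-3/2-m} P(z)] = e^{-z} t^{-3/2-m-1} (z P - (3/2+m) P - z P')`
  (`Polynomial.hasDerivAt`, `Real.hasDerivAt_rpow_const`). Both functions agree for all `t > 0`
  (induction hypothesis), so the derivatives agree (`HasDerivAt.unique`, `EventuallyEq`).

`four_S`: put `t = 1`; `S(|k|²)` is the combination of the `|k|^{2m}`, `m ≤ 7`, with the coefficients given in `S`; the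
explicit polynomials are
`p1 = 3 - 2z`, `p2 = 15 - 20z + 4z²`, `p3 = 105 - 210z + 84z² - 8z³`, `p4`, ..., `p7`
(compute `pm 1`, ..., `pm 7` one after the other: `simp [pm, ...]; ring`), and
`Π = (450745513 p0 - 286448416 p1 - 114724765 p2 + 11994376 p3 - 1959025 p4 + 407920 p5 - 26075 p6 + 500 p7)/27990001524 = Pz`.
(If Lean's `pm m` are awkward, any other route to `four_S` is fine: only `int_S`, `four_S`, `mom_S`, `int_Pz` are used elsewhere.)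

`mom_S`: by `Jm` at `x = 0`, `t = 1`: `∫ |k|^{2m} e^{-|k|²/2} dk = (2π)^{3/2} pm_m(0) = (2π)^{3/2} (2m+1)!!`, i.e.
`1, 3, 15, 105, 945, 10395, 135135, 2027025` for `m = 0..7`; `Pz(|x|²/2)` is a combination of the `|x|^{2m}/2^m`; the sum
`Σ_m Π_m (2m+1)!!/2^m` is `450745513/27990001524` (exactly; `norm_num`).
-/

open MeasureTheory Set Polynomial
open scoped ENNReal

set_option linter.unusedSimpArgs false

namespace Pool.Agent.H50.UD

open Pool.Agent.H75.LO (E3)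

noncomputable def pm : ℕ → Polynomial ℝ
  | 0 => 1
  | m + 1 => (C (3 + 2 * (m : ℝ)) - C 2 * X) * pm m + C 2 * X * derivative (pm m)

theorem jm_gauss {b : ℝ} (hb : 0 < b) :
    Integrable (fun k : E3 => Real.exp (-(b * ‖k‖ ^ 2))) := by
  have h := GaussianFourier.integrable_cexp_neg_mul_sq_norm_add (V := E3) (b := (b : ℂ))
    (by simpa using hb) 0 0
  refine h.norm.congr (Filter.Eventually.of_forall fun k => ?_)
  simp only [Complex.norm_exp]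
  congr 1
  simp [← Complex.ofReal_pow]

theorem jm_pow_le (m : ℕ) {t : ℝ} (ht : 0 < t) (k : E3) :
    ‖k‖ ^ (2 * m) * Real.exp (-(t * ‖k‖ ^ 2 / 2)) ≤
      ((m.factorial : ℝ) * (4 / t) ^ m) * Real.exp (-(t / 4 * ‖k‖ ^ 2)) := by
  have h := Real.pow_div_factorial_le_exp (t / 4 * ‖k‖ ^ 2) (by positivity) m
  have hf : (0 : ℝ) < m.factorial := by exact_mod_cast Nat.factorial_pos m
  rw [div_le_iff₀ hf] at h
  have e1 : ‖k‖ ^ (2 * m) = (4 / t) ^ m * (t / 4 * ‖k‖ ^ 2) ^ m := by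
    rw [← mul_pow, pow_mul]
    congr 1
    field_simp
  have e2 : Real.exp (-(t * ‖k‖ ^ 2 / 2)) =
      Real.exp (-(t / 4 * ‖k‖ ^ 2)) * Real.exp (-(t / 4 * ‖k‖ ^ 2)) := by
    rw [← Real.exp_add]
    congr 1
    ring
  have e3 : Real.exp (t / 4 * ‖k‖ ^ 2) * Real.exp (-(t / 4 * ‖k‖ ^ 2)) = 1 := by
    rw [← Real.exp_add]
    simp
  calc ‖k‖ ^ (2 * m) * Real.exp (-(t * ‖k‖ ^ 2 / 2))
      = (4 / t) ^ m * (t / 4 * ‖k‖ ^ 2) ^ m *
        (Real.exp (-(t / 4 * ‖k‖ ^ 2)) * Real.exp (-(t / 4 * ‖k‖ ^ 2))) := by rw [e1, e2]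
    _ ≤ (4 / t) ^ m * (Real.exp (t / 4 * ‖k‖ ^ 2) * m.factorial) *
        (Real.exp (-(t / 4 * ‖k‖ ^ 2)) * Real.exp (-(t / 4 * ‖k‖ ^ 2))) := by
        gcongr
    _ = ((m.factorial : ℝ) * (4 / t) ^ m) * Real.exp (-(t / 4 * ‖k‖ ^ 2)) *
        (Real.exp (t / 4 * ‖k‖ ^ 2) * Real.exp (-(t / 4 * ‖k‖ ^ 2))) := by ring
    _ = _ := by rw [e3, mul_one]

theorem Jm_int (m : ℕ) {t : ℝ} (ht : 0 < t) :
    Integrable (fun k : E3 => ‖k‖ ^ (2 * m) * Real.exp (-(t * ‖k‖ ^ 2 / 2))) := by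
  have hg := jm_gauss (b := t / 4) (by linarith)
  refine (hg.const_mul ((m.factorial : ℝ) * (4 / t) ^ m)).mono' ?_
    (Filter.Eventually.of_forall fun k => ?_)
  · have hc : Continuous (fun k : E3 => ‖k‖ ^ (2 * m) * Real.exp (-(t * ‖k‖ ^ 2 / 2))) := by
      fun_prop
    exact hc.aestronglyMeasurable
  · rw [Real.norm_of_nonneg (by positivity)]
    exact jm_pow_le m ht k

theorem jm_cont (m : ℕ) (t : ℝ) (x : E3) : Continuous (fun k : E3 =>
    ‖k‖ ^ (2 * m) * Real.exp (-(t * ‖k‖ ^ 2 / 2)) * Real.cos (inner ℝ k x)) := by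
  have h1 : Continuous (fun k : E3 => inner ℝ k x) := continuous_id.inner continuous_const
  have h2 : Continuous (fun k : E3 => Real.cos (inner ℝ k x)) := Real.continuous_cos.comp h1
  have h3 : Continuous (fun k : E3 => ‖k‖ ^ (2 * m) * Real.exp (-(t * ‖k‖ ^ 2 / 2))) := by
    fun_prop
  exact h3.mul h2

theorem jm_int_cos (m : ℕ) {t : ℝ} (ht : 0 < t) (x : E3) : Integrable (fun k : E3 =>
    ‖k‖ ^ (2 * m) * Real.exp (-(t * ‖k‖ ^ 2 / 2)) * Real.cos (inner ℝ k x)) := by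
  refine (Jm_int m ht).mono' (jm_cont m t x).aestronglyMeasurable
    (Filter.Eventually.of_forall fun k => ?_)
  rw [Real.norm_eq_abs, abs_mul, abs_of_nonneg (by positivity)]
  calc _ ≤ ‖k‖ ^ (2 * m) * Real.exp (-(t * ‖k‖ ^ 2 / 2)) * 1 :=
        mul_le_mul_of_nonneg_left (Real.abs_cos_le_one _) (by positivity)
    _ = _ := mul_one _

/-- the case `m = 0` -/
theorem jm_zero {t : ℝ} (ht : 0 < t) (x : E3) :
    ∫ k : E3, Real.exp (-(t * ‖k‖ ^ 2 / 2)) * Real.cos (inner ℝ k x)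
      = (2 * Real.pi) ^ (3 / 2 : ℝ) * (Real.exp (-(‖x‖ ^ 2 / 2 / t)) * t ^ (-(3 / 2) : ℝ)) := by
  have hb : 0 < ((t / 2 : ℝ) : ℂ).re := by
    rw [Complex.ofReal_re]
    linarith
  have h1 := GaussianFourier.integral_cexp_neg_mul_sq_norm_add (V := E3) hb Complex.I x
  have h2 := GaussianFourier.integrable_cexp_neg_mul_sq_norm_add (V := E3) hb Complex.I x
  have h3 := congrArg Complex.re h1
  have h4 := integral_re h2
  change ∫ k : E3, (Complex.exp (-((t / 2 : ℝ) : ℂ) * ‖k‖ ^ 2 +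
    Complex.I * (inner ℝ x k : ℝ))).re = Complex.re _ at h4
  rw [← h4] at h3
  have h5 : ∀ k : E3, (Complex.exp (-((t / 2 : ℝ) : ℂ) * ‖k‖ ^ 2 +
      Complex.I * (inner ℝ x k : ℝ))).re =
      Real.exp (-(t * ‖k‖ ^ 2 / 2)) * Real.cos (inner ℝ k x) := by
    intro k
    have e : -((t / 2 : ℝ) : ℂ) * ‖k‖ ^ 2 + Complex.I * (inner ℝ x k : ℝ) =
        ((-(t * ‖k‖ ^ 2 / 2) : ℝ) : ℂ) + ((inner ℝ x k : ℝ) : ℂ) * Complex.I := by
      push_cast
      ring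
    rw [e, Complex.exp_re]
    simp only [Complex.add_re, Complex.ofReal_re, Complex.mul_re, Complex.I_re, mul_zero,
      Complex.ofReal_im, Complex.I_im, mul_one, sub_self, add_zero, Complex.add_im,
      Complex.mul_im, zero_add]
    rw [real_inner_comm]
  simp only [h5] at h3
  rw [h3]
  have h6 : Module.finrank ℝ E3 = 3 := by simp
  rw [h6]
  have h7 : ((Real.pi : ℂ) / ((t / 2 : ℝ) : ℂ)) ^ (((3 : ℕ) : ℂ) / 2) =
      (((2 * Real.pi / t) ^ (3 / 2 : ℝ) : ℝ) : ℂ) := by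
    rw [Complex.ofReal_cpow (by positivity)]
    congr 1
    · push_cast
      field_simp
    · push_cast
      ring
  have h8 : Complex.exp (Complex.I ^ 2 * (‖x‖ : ℂ) ^ 2 / (4 * ((t / 2 : ℝ) : ℂ))) =
      ((Real.exp (-(‖x‖ ^ 2 / 2 / t)) : ℝ) : ℂ) := by
    rw [Complex.ofReal_exp]
    congr 1
    rw [Complex.I_sq]
    push_cast
    have ht' : (t : ℂ) ≠ 0 := by exact_mod_cast ht.ne'
    field_simp
    ring
  rw [h7, h8, ← Complex.ofReal_mul, Complex.ofReal_re, Real.div_rpow (by positivity) ht.le,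
    Real.rpow_neg ht.le]
  ring

/-- derivative of the integral -/
theorem jm_deriv (m : ℕ) {t : ℝ} (ht : 0 < t) (x : E3) :
    HasDerivAt (fun s => ∫ k : E3, ‖k‖ ^ (2 * m) * Real.exp (-(s * ‖k‖ ^ 2 / 2)) *
      Real.cos (inner ℝ k x))
      (-(1 / 2) * ∫ k : E3, ‖k‖ ^ (2 * (m + 1)) * Real.exp (-(t * ‖k‖ ^ 2 / 2)) *
        Real.cos (inner ℝ k x)) t := by
  rw [← integral_const_mul]
  refine (hasDerivAt_integral_of_dominated_loc_of_deriv_le (𝕜 := ℝ) (s := Ioi (t / 2))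
    (F := fun s (k : E3) => ‖k‖ ^ (2 * m) * Real.exp (-(s * ‖k‖ ^ 2 / 2)) *
      Real.cos (inner ℝ k x))
    (F' := fun s (k : E3) => -(1 / 2) * (‖k‖ ^ (2 * (m + 1)) * Real.exp (-(s * ‖k‖ ^ 2 / 2)) *
        Real.cos (inner ℝ k x)))
    (bound := fun k : E3 => ‖k‖ ^ (2 * (m + 1)) * Real.exp (-(t / 2 * ‖k‖ ^ 2 / 2)))
    (Ioi_mem_nhds (by linarith)) ?_ (jm_int_cos m ht x) ?_ ?_ (Jm_int (m + 1) (by linarith))
    ?_).2
  · exact Filter.Eventually.of_forall fun s => (jm_cont m s x).aestronglyMeasurable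
  · exact ((jm_cont (m + 1) t x).const_mul (-(1 / 2))).aestronglyMeasurable
  · refine Filter.Eventually.of_forall fun k s hs => ?_
    have hs' : t / 2 < s := hs
    rw [Real.norm_eq_abs, abs_mul, abs_mul, abs_of_nonneg
      (show 0 ≤ ‖k‖ ^ (2 * (m + 1)) * Real.exp (-(s * ‖k‖ ^ 2 / 2)) by positivity)]
    have h1 := Real.abs_cos_le_one (inner ℝ k x)
    have h2 : Real.exp (-(s * ‖k‖ ^ 2 / 2)) ≤ Real.exp (-(t / 2 * ‖k‖ ^ 2 / 2)) := by
      refine Real.exp_le_exp.2 ?_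
      have : t / 2 * ‖k‖ ^ 2 ≤ s * ‖k‖ ^ 2 := mul_le_mul_of_nonneg_right hs'.le (by positivity)
      linarith
    have h3 : |(-(1 / 2) : ℝ)| ≤ 1 := by
      rw [abs_neg, abs_of_pos (by norm_num)]
      norm_num
    calc |(-(1 / 2) : ℝ)| * (‖k‖ ^ (2 * (m + 1)) * Real.exp (-(s * ‖k‖ ^ 2 / 2)) *
          |Real.cos (inner ℝ k x)|)
        ≤ 1 * (‖k‖ ^ (2 * (m + 1)) * Real.exp (-(t / 2 * ‖k‖ ^ 2 / 2)) * 1) := by
          gcongr
      _ = _ := by ring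
  · refine Filter.Eventually.of_forall fun k s _ => ?_
    have h1 : HasDerivAt (fun s : ℝ => -(s * ‖k‖ ^ 2 / 2)) (-(‖k‖ ^ 2 / 2)) s := by
      have h := (((hasDerivAt_id s).mul_const (‖k‖ ^ 2)).div_const 2).neg
      refine h.congr_deriv ?_
      ring
    have h2 := ((h1.exp).const_mul (‖k‖ ^ (2 * m))).mul_const (Real.cos (inner ℝ k x))
    refine h2.congr_deriv ?_
    rw [show 2 * (m + 1) = 2 * m + 2 by ring, pow_add]
    ring

/-- derivative of the right-hand side -/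
theorem jm_rhs (m : ℕ) {t : ℝ} (ht : 0 < t) (a : ℝ) :
    HasDerivAt (fun s => Real.exp (-(a / s)) * s ^ (-(3 / 2) - (m : ℝ)) * (pm m).eval (a / s))
      (-(1 / 2) * (Real.exp (-(a / t)) * t ^ (-(3 / 2) - ((m + 1 : ℕ) : ℝ)) *
        (pm (m + 1)).eval (a / t))) t := by
  have h0 : HasDerivAt (fun s : ℝ => a / s) (-(a / t) / t) t := by
    have h := (hasDerivAt_inv ht.ne').const_mul a
    simp only [← div_eq_mul_inv] at h
    refine h.congr_deriv ?_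
    field_simp
  have h1 := h0.neg.exp
  have h2 := Real.hasDerivAt_rpow_const (x := t) (p := -(3 / 2) - (m : ℝ)) (Or.inl ht.ne')
  have h3 := ((pm m).hasDerivAt (a / t)).comp t h0
  have h4 := (h1.mul h2).mul h3
  refine h4.congr_deriv ?_
  simp only [pm, eval_add, eval_mul, eval_sub, eval_C, eval_X, Function.comp_apply,
    Pi.mul_apply, Pi.neg_apply]
  have h5 : t ^ (-(3 / 2) - (m : ℝ) - 1) = t ^ (-(3 / 2) - ((m + 1 : ℕ) : ℝ)) := by
    congr 1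
    push_cast
    ring
  have h6 : t ^ (-(3 / 2) - (m : ℝ)) = t ^ (-(3 / 2) - ((m + 1 : ℕ) : ℝ)) * t := by
    rw [← h5, Real.rpow_sub_one ht.ne']
    field_simp
  rw [h5, h6]
  field_simp
  ring

theorem Jm (m : ℕ) {t : ℝ} (ht : 0 < t) (x : E3) :
    ∫ k : E3, ‖k‖ ^ (2 * m) * Real.exp (-(t * ‖k‖ ^ 2 / 2)) * Real.cos (inner ℝ k x)
      = (2 * Real.pi) ^ (3 / 2 : ℝ) * (Real.exp (-(‖x‖ ^ 2 / 2 / t)) * t ^ (-(3 / 2) - (m : ℝ))
        * (pm m).eval (‖x‖ ^ 2 / 2 / t)) := by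
  induction m generalizing t with
  | zero =>
    have h := jm_zero ht x
    simp only [mul_zero, pow_zero, one_mul, Nat.cast_zero, sub_zero, pm, eval_one, mul_one]
    exact h
  | succ m ih =>
    have h1 := jm_deriv m ht x
    have h2 := (jm_rhs m ht (‖x‖ ^ 2 / 2)).const_mul ((2 * Real.pi) ^ (3 / 2 : ℝ))
    have h3 : (fun s => ∫ k : E3, ‖k‖ ^ (2 * m) * Real.exp (-(s * ‖k‖ ^ 2 / 2)) *
        Real.cos (inner ℝ k x)) =ᶠ[nhds t] fun s => (2 * Real.pi) ^ (3 / 2 : ℝ) *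
        (Real.exp (-(‖x‖ ^ 2 / 2 / s)) * s ^ (-(3 / 2) - (m : ℝ)) *
          (pm m).eval (‖x‖ ^ 2 / 2 / s)) := by
      filter_upwards [Ioi_mem_nhds ht] with s hs
      exact ih hs
    have h4 := (h2.congr_of_eventuallyEq h3).unique h1
    linarith

theorem pm_0 : pm 0 = 1 := by
  rfl

theorem pm_1 : pm 1 = 3 - 2 * X := by
  rw [pm, pm_0]
  have hC : (C (3 + 2 * ((0 : ℕ) : ℝ)) : Polynomial ℝ) = 3 := by
    rw [show (3 + 2 * ((0 : ℕ) : ℝ)) = 3 by norm_num]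
    rfl
  have hC2 : (C (2 : ℝ) : Polynomial ℝ) = 2 := rfl
  rw [hC, hC2]
  simp only [derivative_add, derivative_sub, derivative_mul, derivative_X_pow, derivative_X,
    derivative_ofNat, derivative_one, Nat.cast_ofNat, map_ofNat]
  norm_num

theorem pm_2 : pm 2 = 15 - 20 * X + 4 * X ^ 2 := by
  rw [pm, pm_1]
  have hC : (C (3 + 2 * ((1 : ℕ) : ℝ)) : Polynomial ℝ) = 5 := by
    rw [show (3 + 2 * ((1 : ℕ) : ℝ)) = 5 by norm_num]
    rfl
  have hC2 : (C (2 : ℝ) : Polynomial ℝ) = 2 := rfl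
  rw [hC, hC2]
  simp only [derivative_add, derivative_sub, derivative_mul, derivative_X_pow, derivative_X,
    derivative_ofNat, derivative_one, Nat.cast_ofNat, map_ofNat]
  norm_num
  ring

theorem pm_3 : pm 3 = 105 - 210 * X + 84 * X ^ 2 - 8 * X ^ 3 := by
  rw [pm, pm_2]
  have hC : (C (3 + 2 * ((2 : ℕ) : ℝ)) : Polynomial ℝ) = 7 := by
    rw [show (3 + 2 * ((2 : ℕ) : ℝ)) = 7 by norm_num]
    rfl
  have hC2 : (C (2 : ℝ) : Polynomial ℝ) = 2 := rfl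
  rw [hC, hC2]
  simp only [derivative_add, derivative_sub, derivative_mul, derivative_X_pow, derivative_X,
    derivative_ofNat, derivative_one, Nat.cast_ofNat, map_ofNat]
  norm_num
  ring

theorem pm_4 : pm 4 = 945 - 2520 * X + 1512 * X ^ 2 - 288 * X ^ 3 + 16 * X ^ 4 := by
  rw [pm, pm_3]
  have hC : (C (3 + 2 * ((3 : ℕ) : ℝ)) : Polynomial ℝ) = 9 := by
    rw [show (3 + 2 * ((3 : ℕ) : ℝ)) = 9 by norm_num]
    rfl
  have hC2 : (C (2 : ℝ) : Polynomial ℝ) = 2 := rfl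
  rw [hC, hC2]
  simp only [derivative_add, derivative_sub, derivative_mul, derivative_X_pow, derivative_X,
    derivative_ofNat, derivative_one, Nat.cast_ofNat, map_ofNat]
  norm_num
  ring

theorem pm_5 : pm 5 = 10395 - 34650 * X + 27720 * X ^ 2 - 7920 * X ^ 3 + 880 * X ^ 4 - 32 * X ^ 5 := by
  rw [pm, pm_4]
  have hC : (C (3 + 2 * ((4 : ℕ) : ℝ)) : Polynomial ℝ) = 11 := by
    rw [show (3 + 2 * ((4 : ℕ) : ℝ)) = 11 by norm_num]
    rfl
  have hC2 : (C (2 : ℝ) : Polynomial ℝ) = 2 := rfl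
  rw [hC, hC2]
  simp only [derivative_add, derivative_sub, derivative_mul, derivative_X_pow, derivative_X,
    derivative_ofNat, derivative_one, Nat.cast_ofNat, map_ofNat]
  norm_num
  ring

theorem pm_6 : pm 6 = 135135 - 540540 * X + 540540 * X ^ 2 - 205920 * X ^ 3 + 34320 * X ^ 4 - 2496 * X ^ 5 + 64 * X ^ 6 := by
  rw [pm, pm_5]
  have hC : (C (3 + 2 * ((5 : ℕ) : ℝ)) : Polynomial ℝ) = 13 := by
    rw [show (3 + 2 * ((5 : ℕ) : ℝ)) = 13 by norm_num]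
    rfl
  have hC2 : (C (2 : ℝ) : Polynomial ℝ) = 2 := rfl
  rw [hC, hC2]
  simp only [derivative_add, derivative_sub, derivative_mul, derivative_X_pow, derivative_X,
    derivative_ofNat, derivative_one, Nat.cast_ofNat, map_ofNat]
  norm_num
  ring

theorem pm_7 : pm 7 = 2027025 - 9459450 * X + 11351340 * X ^ 2 - 5405400 * X ^ 3 + 1201200 * X ^ 4 - 131040 * X ^ 5 + 6720 * X ^ 6 - 128 * X ^ 7 := by
  rw [pm, pm_6]
  have hC : (C (3 + 2 * ((6 : ℕ) : ℝ)) : Polynomial ℝ) = 15 := by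
    rw [show (3 + 2 * ((6 : ℕ) : ℝ)) = 15 by norm_num]
    rfl
  have hC2 : (C (2 : ℝ) : Polynomial ℝ) = 2 := rfl
  rw [hC, hC2]
  simp only [derivative_add, derivative_sub, derivative_mul, derivative_X_pow, derivative_X,
    derivative_ofNat, derivative_one, Nat.cast_ofNat, map_ofNat]
  norm_num
  ring

theorem jm_evals (z : ℝ) : (pm 0).eval z = 1 ∧ (pm 1).eval z = 3 - 2 * z ∧
    (pm 2).eval z = 15 - 20 * z + 4 * z ^ 2 ∧
    (pm 3).eval z = 105 - 210 * z + 84 * z ^ 2 - 8 * z ^ 3 ∧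
    (pm 4).eval z = 945 - 2520 * z + 1512 * z ^ 2 - 288 * z ^ 3 + 16 * z ^ 4 ∧
    (pm 5).eval z = 10395 - 34650 * z + 27720 * z ^ 2 - 7920 * z ^ 3 + 880 * z ^ 4 - 32 * z ^ 5 ∧
    (pm 6).eval z = 135135 - 540540 * z + 540540 * z ^ 2 - 205920 * z ^ 3 + 34320 * z ^ 4 - 2496 * z ^ 5 + 64 * z ^ 6 ∧
    (pm 7).eval z = 2027025 - 9459450 * z + 11351340 * z ^ 2 - 5405400 * z ^ 3 + 1201200 * z ^ 4 - 131040 * z ^ 5 + 6720 * z ^ 6 - 128 * z ^ 7 := by
  rw [pm_0, pm_1, pm_2, pm_3, pm_4, pm_5, pm_6, pm_7]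
  simp only [eval_add, eval_sub, eval_mul, eval_pow, eval_X, eval_ofNat, eval_one, and_self]

/-- coefficients of `S` -/
noncomputable def jc (m : ℕ) : ℝ :=
  (([450745513, -286448416, -114724765, 11994376, -1959025, 407920, -26075, 500] : List ℝ).getD
    m 0) / 27990001524

/-- coefficients of `Pz` -/
noncomputable def jz (m : ℕ) : ℝ :=
  (([-247786145, 128935918, 118803656, -23954552, 8332800, -3372560, 422800, -16000] :
    List ℝ).getD m 0) / 6997500381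

theorem jm_S (τ : ℝ) : S τ = ∑ m ∈ Finset.range 8, jc m * τ ^ m := by
  simp only [Finset.sum_range_succ, Finset.sum_range_zero, jc, S, List.getD_cons_zero,
    List.getD_cons_succ]
  ring

theorem jm_P (z : ℝ) : Pz z = ∑ m ∈ Finset.range 8, jz m * z ^ m := by
  simp only [Finset.sum_range_succ, Finset.sum_range_zero, jz, Pz, List.getD_cons_zero,
    List.getD_cons_succ]
  ring

theorem jm_int1 (m : ℕ) :
    Integrable (fun k : E3 => ‖k‖ ^ (2 * m) * Real.exp (-(‖k‖ ^ 2 / 2))) := by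
  have h := Jm_int m (t := 1) one_pos
  simpa only [one_mul] using h

theorem jm_int1_cos (m : ℕ) (x : E3) : Integrable (fun k : E3 =>
    ‖k‖ ^ (2 * m) * Real.exp (-(‖k‖ ^ 2 / 2)) * Real.cos (inner ℝ k x)) := by
  have h := jm_int_cos m (t := 1) one_pos x
  simpa only [one_mul] using h

theorem jm_one (m : ℕ) (x : E3) :
    ∫ k : E3, ‖k‖ ^ (2 * m) * Real.exp (-(‖k‖ ^ 2 / 2)) * Real.cos (inner ℝ k x)
      = (2 * Real.pi) ^ (3 / 2 : ℝ) * (Real.exp (-(‖x‖ ^ 2 / 2))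
        * (pm m).eval (‖x‖ ^ 2 / 2)) := by
  have h := Jm m (t := 1) one_pos x
  simpa only [one_mul, div_one, Real.one_rpow, mul_one] using h

theorem jm_mom (m : ℕ) :
    ∫ k : E3, ‖k‖ ^ (2 * m) * Real.exp (-(‖k‖ ^ 2 / 2))
      = (2 * Real.pi) ^ (3 / 2 : ℝ) * (pm m).eval 0 := by
  have h := jm_one m 0
  simpa using h

theorem int_S : Integrable (fun k : E3 => S (‖k‖ ^ 2) * Real.exp (-(‖k‖ ^ 2 / 2))) := by
  have h : Integrable (fun k : E3 => ∑ m ∈ Finset.range 8,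
      jc m * (‖k‖ ^ (2 * m) * Real.exp (-(‖k‖ ^ 2 / 2)))) :=
    integrable_finsetSum _ fun m _ => (jm_int1 m).const_mul (jc m)
  refine h.congr (Filter.Eventually.of_forall fun k => ?_)
  show ∑ m ∈ Finset.range 8, jc m * (‖k‖ ^ (2 * m) * Real.exp (-(‖k‖ ^ 2 / 2))) =
    S (‖k‖ ^ 2) * Real.exp (-(‖k‖ ^ 2 / 2))
  rw [jm_S, Finset.sum_mul]
  refine Finset.sum_congr rfl fun m _ => ?_
  rw [pow_mul]
  ring

theorem four_S (x : E3) :
    ∫ k : E3, S (‖k‖ ^ 2) * Real.exp (-(‖k‖ ^ 2 / 2)) * Real.cos (inner ℝ k x)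
      = (2 * Real.pi) ^ (3 / 2 : ℝ) * (Real.exp (-(‖x‖ ^ 2 / 2)) * Pz (‖x‖ ^ 2 / 2)) := by
  have h1 : ∀ k : E3, S (‖k‖ ^ 2) * Real.exp (-(‖k‖ ^ 2 / 2)) * Real.cos (inner ℝ k x) =
      ∑ m ∈ Finset.range 8,
        jc m * (‖k‖ ^ (2 * m) * Real.exp (-(‖k‖ ^ 2 / 2)) * Real.cos (inner ℝ k x)) := by
    intro k
    rw [jm_S, Finset.sum_mul, Finset.sum_mul]
    refine Finset.sum_congr rfl fun m _ => ?_
    rw [pow_mul]
    ring
  simp only [h1]
  rw [integral_finsetSum _ fun m _ => (jm_int1_cos m x).const_mul (jc m)]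
  simp only [integral_const_mul, jm_one]
  obtain ⟨e0, e1, e2, e3, e4, e5, e6, e7⟩ := jm_evals (‖x‖ ^ 2 / 2)
  simp only [Finset.sum_range_succ, Finset.sum_range_zero, e0, e1, e2, e3, e4, e5, e6, e7, jc, Pz,
    List.getD_cons_zero, List.getD_cons_succ]
  ring

theorem jm_Pexp (k : E3) : Real.exp (-(‖k‖ ^ 2 / 2)) * Pz (‖k‖ ^ 2 / 2) =
    ∑ m ∈ Finset.range 8, (jz m / 2 ^ m) * (‖k‖ ^ (2 * m) * Real.exp (-(‖k‖ ^ 2 / 2))) := by
  rw [jm_P, Finset.mul_sum]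
  refine Finset.sum_congr rfl fun m _ => ?_
  rw [pow_mul, div_pow]
  ring

theorem int_Pz : Integrable (fun x : E3 => Real.exp (-(‖x‖ ^ 2 / 2)) * Pz (‖x‖ ^ 2 / 2)) := by
  have h : Integrable (fun k : E3 => ∑ m ∈ Finset.range 8,
      (jz m / 2 ^ m) * (‖k‖ ^ (2 * m) * Real.exp (-(‖k‖ ^ 2 / 2)))) :=
    integrable_finsetSum _ fun m _ => (jm_int1 m).const_mul (jz m / 2 ^ m)
  refine h.congr (Filter.Eventually.of_forall fun k => ?_)
  show ∑ m ∈ Finset.range 8, (jz m / 2 ^ m) * (‖k‖ ^ (2 * m) * Real.exp (-(‖k‖ ^ 2 / 2))) =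
    Real.exp (-(‖k‖ ^ 2 / 2)) * Pz (‖k‖ ^ 2 / 2)
  exact (jm_Pexp k).symm

theorem mom_S : ∫ x : E3, Real.exp (-(‖x‖ ^ 2 / 2)) * Pz (‖x‖ ^ 2 / 2)
    = (2 * Real.pi) ^ (3 / 2 : ℝ) * (450745513 / 27990001524) := by
  simp only [jm_Pexp]
  rw [integral_finsetSum _ fun m _ => (jm_int1 m).const_mul (jz m / 2 ^ m)]
  simp only [integral_const_mul, jm_mom]
  obtain ⟨e0, e1, e2, e3, e4, e5, e6, e7⟩ := jm_evals 0
  simp only [Finset.sum_range_succ, Finset.sum_range_zero, e0, e1, e2, e3, e4, e5, e6, e7, jz,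
    List.getD_cons_zero, List.getD_cons_succ]
  ring

end Pool.Agent.H50.UD
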