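import Pool.Agent.H50.UD.Pol

/-!
# UD-Kin: a rational lower bound for `∫_1^∞ e^{-zw²} dw`, and `W(r) ≤ 1/r`

`kin`: put `L(s) = (5+2s)/D(s)`, `D(s) = 3+12s+4s²`, and `F(w) = -e^{-zw²} w L(zw²)`. With `s = zw²`,
`F'(w) = e^{-s} (2 s L(s) - L(s) - 2 s L'(s)) = e^{-s} (1 - 24/D(s)²)` (because
`1 + 2sL'(s) + (1-2s)L(s) = 24/D(s)²`; `field_simp; ring`), so `F' ≤ e^{-zw²}`, `|F'| ≤ 2 e^{-zw²}` on `w ≥ 1`
(`24/D² ≤ 24/9`), `F(w) → 0` as `w → ∞`
(`0 ≤ -F(w) ≤ e^{-zw²} w · 5/3 ≤ e^{-zw} w · 5/3` for `w ≥ 1`, or squeeze by `w e^{-zw}`, or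
`-F(w) ≤ 2 w e^{-z w²}`, `tendsto` by `Real.tendsto_pow_mul_exp_neg_atTop_nhds_zero` or similar), hence
`∫_{Ioi 1} F' = 0 - F(1) = e^{-z} L(z)` (`integral_Ioi_of_hasDerivAt_of_tendsto`) and monotonicity of the
integral gives the claim. Integrability of `e^{-zw²}`: `integrable_exp_neg_mul_sq`.

`W_compl`: `∫_{Ioi 0} e^{-zw²} dw = √(π/z)/2` (`integral_gaussian_Ioi`), `z = r²/2`, so
`bt * ∫_{Ioi 0} = 1/r` as `bt * √(2π) = 2`; and `∫_{Ioi 0} = ∫_0^1 + ∫_{Ioi 1}`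
(`intervalIntegral.integral_of_le`, `setIntegral_union`, `Ioc_union_Ioi_eq_Ioi`).

`W_le`: from `W_compl`, `kin` and `pol` (with `z = r²/2 > 0`).
-/

open MeasureTheory Set
open scoped ENNReal

namespace Pool.Agent.H50.UD

theorem kin_int {z : ℝ} (hz : 0 < z) : Integrable (fun w : ℝ => Real.exp (-(z * w ^ 2))) := by
  simpa [neg_mul] using integrable_exp_neg_mul_sq hz

theorem kin_deriv (z : ℝ) (hz : 0 < z) (w : ℝ) :
    HasDerivAt (fun w : ℝ => -(Real.exp (-(z * w ^ 2)) *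
      (w * (5 + 2 * (z * w ^ 2)) / (3 + 12 * (z * w ^ 2) + 4 * (z * w ^ 2) ^ 2))))
      (Real.exp (-(z * w ^ 2)) * (1 - 24 / (3 + 12 * (z * w ^ 2) + 4 * (z * w ^ 2) ^ 2) ^ 2)) w := by
  have hs : HasDerivAt (fun w : ℝ => z * w ^ 2) (z * (2 * w)) w := by
    simpa using (hasDerivAt_pow 2 w).const_mul z
  have hsq : HasDerivAt (fun w : ℝ => (z * w ^ 2) ^ 2) (2 * (z * w ^ 2) * (z * (2 * w))) w := by
    simpa using hs.fun_pow 2
  have hD : HasDerivAt (fun w : ℝ => 3 + 12 * (z * w ^ 2) + 4 * (z * w ^ 2) ^ 2)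
      (12 * (z * (2 * w)) + 4 * (2 * (z * w ^ 2) * (z * (2 * w)))) w :=
    ((hs.const_mul 12).const_add 3).add (hsq.const_mul 4)
  have hN : HasDerivAt (fun w : ℝ => w * (5 + 2 * (z * w ^ 2)))
      (1 * (5 + 2 * (z * w ^ 2)) + w * (2 * (z * (2 * w)))) w :=
    (hasDerivAt_id w).mul ((hs.const_mul 2).const_add 5)
  have hpos : 0 < 3 + 12 * (z * w ^ 2) + 4 * (z * w ^ 2) ^ 2 := by positivity
  have h : HasDerivAt (fun w : ℝ => -(Real.exp (-(z * w ^ 2)) *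
      (w * (5 + 2 * (z * w ^ 2)) / (3 + 12 * (z * w ^ 2) + 4 * (z * w ^ 2) ^ 2)))) _ w :=
    ((hs.neg.exp).mul (hN.div hD hpos.ne')).neg
  refine h.congr_deriv ?_
  have hne := hpos.ne'
  simp only [Pi.neg_apply, Pi.div_apply]
  generalize Real.exp (-(z * w ^ 2)) = E at *
  rw [eq_comm]
  field_simp
  ring

theorem kin_tendsto (z : ℝ) (hz : 0 < z) :
    Filter.Tendsto (fun w : ℝ => -(Real.exp (-(z * w ^ 2)) *
      (w * (5 + 2 * (z * w ^ 2)) / (3 + 12 * (z * w ^ 2) + 4 * (z * w ^ 2) ^ 2))))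
      Filter.atTop (nhds 0) := by
  have h1 : Filter.Tendsto (fun w : ℝ => z * w) Filter.atTop Filter.atTop :=
    Filter.tendsto_id.const_mul_atTop hz
  have h2 := (Real.tendsto_pow_mul_exp_neg_atTop_nhds_zero 1).comp h1
  have h3 : Filter.Tendsto (fun w : ℝ => 2 / z * ((z * w) ^ 1 * Real.exp (-(z * w))))
      Filter.atTop (nhds 0) := by
    simpa using h2.const_mul (2 / z)
  rw [← neg_zero]
  refine Filter.Tendsto.neg ?_
  refine squeeze_zero' ?_ ?_ h3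
  · filter_upwards [Filter.eventually_ge_atTop (1 : ℝ)] with w hw
    have : 0 ≤ w := by linarith
    positivity
  · filter_upwards [Filter.eventually_ge_atTop (1 : ℝ)] with w hw
    have hw0 : 0 ≤ w := by linarith
    have hpos : 0 < 3 + 12 * (z * w ^ 2) + 4 * (z * w ^ 2) ^ 2 := by positivity
    have hs0 : 0 ≤ z * w ^ 2 := by positivity
    have e1 : w * (5 + 2 * (z * w ^ 2)) / (3 + 12 * (z * w ^ 2) + 4 * (z * w ^ 2) ^ 2) ≤ 2 * w := by
      rw [div_le_iff₀ hpos]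
      nlinarith [mul_nonneg hw0 hs0, mul_nonneg hw0 (sq_nonneg (z * w ^ 2))]
    have e2 : Real.exp (-(z * w ^ 2)) ≤ Real.exp (-(z * w)) := by
      apply Real.exp_le_exp.2
      nlinarith [mul_nonneg hz.le (mul_nonneg hw0 (by linarith : (0 : ℝ) ≤ w - 1))]
    calc Real.exp (-(z * w ^ 2)) *
          (w * (5 + 2 * (z * w ^ 2)) / (3 + 12 * (z * w ^ 2) + 4 * (z * w ^ 2) ^ 2))
        ≤ Real.exp (-(z * w)) * (2 * w) := by
          apply mul_le_mul e2 e1 (by positivity) (by positivity)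
      _ = 2 / z * ((z * w) ^ 1 * Real.exp (-(z * w))) := by
          field_simp

theorem kin {z : ℝ} (hz : 0 < z) :
    Real.exp (-z) * ((5 + 2 * z) / (3 + 12 * z + 4 * z ^ 2))
      ≤ ∫ w in Ioi (1 : ℝ), Real.exp (-(z * w ^ 2)) := by
  have hint := (kin_int hz).integrableOn (s := Ioi (1 : ℝ))
  have hF : IntegrableOn (fun w : ℝ => Real.exp (-(z * w ^ 2)) *
      (1 - 24 / (3 + 12 * (z * w ^ 2) + 4 * (z * w ^ 2) ^ 2) ^ 2)) (Ioi (1 : ℝ)) := by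
    refine Integrable.mono' (hint.const_mul 2) ?_ ?_
    · refine Continuous.aestronglyMeasurable ?_
      have : ∀ w : ℝ, (3 + 12 * (z * w ^ 2) + 4 * (z * w ^ 2) ^ 2) ^ 2 ≠ 0 := by
        intro w
        positivity
      fun_prop (disch := exact this _)
    · refine Filter.Eventually.of_forall fun w => ?_
      have hD : 3 ≤ 3 + 12 * (z * w ^ 2) + 4 * (z * w ^ 2) ^ 2 := by
        have : 0 ≤ 12 * (z * w ^ 2) + 4 * (z * w ^ 2) ^ 2 := by positivity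
        linarith
      have hD2 : 9 ≤ (3 + 12 * (z * w ^ 2) + 4 * (z * w ^ 2) ^ 2) ^ 2 := by nlinarith
      have h1 : 24 / (3 + 12 * (z * w ^ 2) + 4 * (z * w ^ 2) ^ 2) ^ 2 ≤ 3 := by
        rw [div_le_iff₀ (by linarith)]
        linarith
      have h0 : 0 ≤ 24 / (3 + 12 * (z * w ^ 2) + 4 * (z * w ^ 2) ^ 2) ^ 2 := by positivity
      rw [norm_mul, Real.norm_of_nonneg (Real.exp_pos _).le, mul_comm]
      refine mul_le_mul_of_nonneg_right ?_ (Real.exp_pos _).le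
      rw [Real.norm_eq_abs, abs_le]
      constructor <;> linarith
  have hI := integral_Ioi_of_hasDerivAt_of_tendsto' (fun w _ => kin_deriv z hz w) hF
    (kin_tendsto z hz)
  have hmono : ∫ w in Ioi (1 : ℝ), Real.exp (-(z * w ^ 2)) *
      (1 - 24 / (3 + 12 * (z * w ^ 2) + 4 * (z * w ^ 2) ^ 2) ^ 2) ≤
      ∫ w in Ioi (1 : ℝ), Real.exp (-(z * w ^ 2)) := by
    refine integral_mono hF hint fun w => ?_
    have h0 : 0 ≤ 24 / (3 + 12 * (z * w ^ 2) + 4 * (z * w ^ 2) ^ 2) ^ 2 := by positivity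
    show Real.exp (-(z * w ^ 2)) * _ ≤ Real.exp (-(z * w ^ 2))
    exact mul_le_of_le_one_right (Real.exp_pos _).le (by linarith)
  rw [hI] at hmono
  refine le_of_eq_of_le ?_ hmono
  norm_num

theorem W_compl {r : ℝ} (hr : 0 < r) :
    r⁻¹ - W r = bt * ((∫ w in Ioi (1 : ℝ), Real.exp (-(r ^ 2 / 2 * w ^ 2)))
      - Real.exp (-(r ^ 2 / 2)) * Pz (r ^ 2 / 2)) := by
  have hz : 0 < r ^ 2 / 2 := by positivity
  have hint := kin_int hz
  have h0 : ∫ w in Ioi (0 : ℝ), Real.exp (-(r ^ 2 / 2 * w ^ 2)) =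
      Real.sqrt (Real.pi / (r ^ 2 / 2)) / 2 := by
    rw [← integral_gaussian_Ioi]
    simp only [neg_mul]
  have hsplit : ∫ w in Ioi (0 : ℝ), Real.exp (-(r ^ 2 / 2 * w ^ 2)) =
      (∫ w in (0 : ℝ)..1, Real.exp (-(r ^ 2 / 2 * w ^ 2))) +
        ∫ w in Ioi (1 : ℝ), Real.exp (-(r ^ 2 / 2 * w ^ 2)) := by
    rw [intervalIntegral.integral_of_le zero_le_one, ← Ioc_union_Ioi_eq_Ioi zero_le_one,
      setIntegral_union]
    · exact Ioc_disjoint_Ioi le_rfl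
    · exact measurableSet_Ioi
    · exact hint.integrableOn
    · exact hint.integrableOn
  have hb : bt * (Real.sqrt (Real.pi / (r ^ 2 / 2)) / 2) = r⁻¹ := by
    unfold bt
    rw [← mul_div_assoc, ← Real.sqrt_mul (by positivity)]
    have : 2 / Real.pi * (Real.pi / (r ^ 2 / 2)) = (2 / r) ^ 2 := by
      have := Real.pi_pos
      field_simp
    rw [this, Real.sqrt_sq (by positivity)]
    field_simp
  rw [← hb, ← h0, hsplit]
  unfold W
  ring

theorem W_le {r : ℝ} (hr : 0 < r) : W r ≤ r⁻¹ := by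
  have hz : 0 < r ^ 2 / 2 := by positivity
  have h1 := W_compl hr
  have h2 := kin hz
  have h3 := pol hz.le
  have hbt : 0 ≤ bt := Real.sqrt_nonneg _
  have h4 : Real.exp (-(r ^ 2 / 2)) * Pz (r ^ 2 / 2) ≤
      ∫ w in Ioi (1 : ℝ), Real.exp (-(r ^ 2 / 2 * w ^ 2)) := by
    refine le_trans (mul_le_mul_of_nonneg_left ?_ (Real.exp_pos _).le) h2
    exact h3
  have h5 : 0 ≤ bt * ((∫ w in Ioi (1 : ℝ), Real.exp (-(r ^ 2 / 2 * w ^ 2)))
      - Real.exp (-(r ^ 2 / 2)) * Pz (r ^ 2 / 2)) := mul_nonneg hbt (by linarith)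
  linarith

end Pool.Agent.H50.UD
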