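import Pool.Agent.H50.UD.Defs

/-!
# UD-Lap: Fourier transform of `|k|⁻² e^{-|k|²/2}` on `ℝ³`

For `k ≠ 0`, `τ = |k|²`: `τ⁻¹ e^{-τ/2} = 1/2 ∫_{Ioi 1} e^{-tτ/2} dt` (`integral_exp_neg_mul_Ioi`, `integral_exp_mul_Ioi` or
`integral_Ioi_of_hasDerivAt_of_tendsto`). `∫_k e^{-tτ/2} dk = (2π/t)^{3/2}`
(`GaussianFourier.integral_rexp_neg_mul_sq_norm`, `finrank = 3`) is integrable over `t ∈ (1,∞)`
(`integrableOn_Ioi_rpow_of_lt`), so by Tonelli (`integrable_prod_iff'` on `volume.prod (volume.restrict (Ioi 1))`)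
`(k,t) ↦ e^{-t|k|²/2}` is integrable on `E3 × (1,∞)`; so is its product with `cos⟨k,x⟩` (`bdd_mul`, measurable,
bounded by 1); so `int_sing` (`Integrable.integral_prod_left`, a.e. equal since `{0}` is a null set) and by Fubini
(`integral_integral_swap`)
`∫_k |k|⁻² e^{-|k|²/2} cos⟨k,x⟩ = 1/2 ∫_1^∞ ∫_k e^{-t|k|²/2} cos⟨k,x⟩ dk dt = 1/2 ∫_1^∞ (2π/t)^{3/2} e^{-|x|²/2t} dt`,
where the inner integral is the real part of `GaussianFourier.integral_cexp_neg_mul_sq_norm_add` (`b = t/2`, `c = I`).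
Finally substitute `t = w⁻²` (`integral_comp_rpow_Ioi` with exponent `-2` applied to the indicator of `(1,∞)`, or
`integral_image_eq_integral_abs_deriv_smul` on `(0,1)`, ...): `1/2 ∫_1^∞ t^{-3/2} e^{-a/t} dt = ∫_0^1 e^{-a w²} dw`, `a = |x|²/2`.

Status: complete (helper26).
-/

open MeasureTheory Set
open scoped ENNReal

namespace Pool.Agent.H50.UD

open Pool.Agent.H75.LO (E3)

/-- substitution `t = w⁻²` -/
theorem subst_w (a : ℝ) : ∫ t in Ioi (1 : ℝ), t ^ (-(3 / 2) : ℝ) * Real.exp (-(a / t))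
    = 2 * ∫ w in (0 : ℝ)..1, Real.exp (-(a * w ^ 2)) := by
  have himg : (fun w : ℝ => (w ^ 2)⁻¹) '' Ioo 0 1 = Ioi 1 := by
    ext t
    simp only [mem_image, mem_Ioo, mem_Ioi]
    constructor
    · rintro ⟨w, ⟨h0, h1⟩, rfl⟩
      have h2 : w ^ 2 < 1 := by nlinarith
      have h3 : 0 < w ^ 2 := by positivity
      rw [lt_inv_comm₀ one_pos h3, inv_one]
      exact h2
    · intro ht
      have ht0 : 0 < t := by linarith
      refine ⟨(Real.sqrt t)⁻¹, ⟨by positivity, ?_⟩, ?_⟩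
      · have h1 : 1 < Real.sqrt t := by
          rw [Real.lt_sqrt zero_le_one]
          simpa using ht
        rw [inv_lt_comm₀ (by linarith) one_pos, inv_one]
        exact h1
      · rw [inv_pow, Real.sq_sqrt ht0.le, inv_inv]
  have hder : ∀ w ∈ Ioo (0 : ℝ) 1, HasDerivWithinAt (fun w : ℝ => (w ^ 2)⁻¹)
      (-(2 * w) / (w ^ 2) ^ 2) (Ioo 0 1) w := by
    intro w hw
    have h0 : w ^ 2 ≠ 0 := by
      have := hw.1
      positivity
    have h := (hasDerivAt_pow 2 w).fun_inv h0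
    have h2 : HasDerivAt (fun w : ℝ => (w ^ 2)⁻¹) (-(2 * w) / (w ^ 2) ^ 2) w := by
      simpa using h
    exact h2.hasDerivWithinAt
  have hinj : InjOn (fun w : ℝ => (w ^ 2)⁻¹) (Ioo 0 1) := by
    intro w hw v hv h
    simp only at h
    have h1 : w ^ 2 = v ^ 2 := inv_injective h
    have hw0 := hw.1
    have hv0 := hv.1
    nlinarith [sq_nonneg (w - v), sq_nonneg (w + v)]
  rw [← himg, integral_image_eq_integral_abs_deriv_smul measurableSet_Ioo hder hinj,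
    intervalIntegral.integral_of_le zero_le_one, integral_Ioc_eq_integral_Ioo,
    ← integral_const_mul]
  refine setIntegral_congr_fun measurableSet_Ioo fun w hw => ?_
  have hw0 : 0 < w := hw.1
  have h1 : ((w ^ 2)⁻¹) ^ (-(3 / 2) : ℝ) = w ^ 3 := by
    have h2 : (w ^ 2)⁻¹ = w ^ (-2 : ℝ) := by
      rw [Real.rpow_neg hw0.le]
      norm_num
    rw [h2, ← Real.rpow_mul hw0.le]
    have h3 : (-2 : ℝ) * (-(3 / 2)) = ((3 : ℕ) : ℝ) := by norm_num
    rw [h3, Real.rpow_natCast]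
  have h4 : |-(2 * w) / (w ^ 2) ^ 2| = 2 * w / (w ^ 2) ^ 2 := by
    rw [abs_div, abs_neg, abs_of_pos (by positivity : (0 : ℝ) < 2 * w),
      abs_of_pos (by positivity : (0 : ℝ) < (w ^ 2) ^ 2)]
  show |-(2 * w) / (w ^ 2) ^ 2| • (((w ^ 2)⁻¹) ^ (-(3 / 2) : ℝ) *
    Real.exp (-(a / (w ^ 2)⁻¹))) = 2 * Real.exp (-(a * w ^ 2))
  rw [h1, h4, div_inv_eq_mul, smul_eq_mul]
  field_simp

theorem lap_gint {b : ℝ} (hb : 0 < b) : Integrable (fun k : E3 => Real.exp (-b * ‖k‖ ^ 2)) := by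
  have h := (GaussianFourier.integrable_cexp_neg_mul_sq_norm_add (V := E3) (b := (b : ℂ))
    (by simpa using hb) 0 0).norm
  refine h.congr (Filter.Eventually.of_forall fun v => ?_)
  simp only [Complex.norm_exp]
  congr 1
  simp only [zero_mul, add_zero, ← Complex.ofReal_neg, ← Complex.ofReal_pow, ← Complex.ofReal_mul,
    Complex.ofReal_re]

theorem lap_pow {t : ℝ} (ht : 0 < t) :
    (Real.pi / (t / 2)) ^ (3 / 2 : ℝ) = (2 * Real.pi) ^ (3 / 2 : ℝ) * t ^ (-(3 / 2) : ℝ) := by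
  have hpi := Real.pi_pos
  have h : Real.pi / (t / 2) = (2 * Real.pi) * t⁻¹ := by field_simp
  rw [h, Real.mul_rpow (by positivity) (by positivity), Real.inv_rpow ht.le, Real.rpow_neg ht.le]

theorem lap_gval {t : ℝ} (ht : 0 < t) :
    ∫ k : E3, Real.exp (-(t / 2) * ‖k‖ ^ 2) =
      (2 * Real.pi) ^ (3 / 2 : ℝ) * t ^ (-(3 / 2) : ℝ) := by
  have h := GaussianFourier.integral_rexp_neg_mul_sq_norm (V := E3) (b := t / 2) (by linarith)
  rw [finrank_euclideanSpace_fin] at h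
  rw [h, ← lap_pow ht]
  norm_num

theorem lap_prod : Integrable (fun p : E3 × ℝ => Real.exp (-(p.2 / 2) * ‖p.1‖ ^ 2))
    ((volume : Measure E3).prod ((volume : Measure ℝ).restrict (Ioi 1))) := by
  rw [integrable_prod_iff' (Continuous.aestronglyMeasurable (by fun_prop))]
  constructor
  · filter_upwards [self_mem_ae_restrict measurableSet_Ioi] with t ht
    have h1 : 1 < t := ht
    exact lap_gint (by linarith)
  · have h1 : IntegrableOn (fun t : ℝ => (2 * Real.pi) ^ (3 / 2 : ℝ) * t ^ (-(3 / 2) : ℝ))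
        (Ioi 1) := (integrableOn_Ioi_rpow_of_lt (by norm_num) zero_lt_one).const_mul _
    refine h1.congr_fun_ae ?_
    filter_upwards [self_mem_ae_restrict measurableSet_Ioi] with t ht
    have h2 : 0 < t := lt_trans zero_lt_one ht
    rw [← lap_gval h2]
    refine integral_congr_ae (Filter.Eventually.of_forall fun k => ?_)
    simp only [Real.norm_eq_abs, Real.abs_exp]

theorem lap_tint {k : E3} (hk : k ≠ 0) :
    ∫ t in Ioi (1 : ℝ), Real.exp (-(t / 2) * ‖k‖ ^ 2) =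
      2 * ((‖k‖ ^ 2)⁻¹ * Real.exp (-(‖k‖ ^ 2 / 2))) := by
  have hk0 : 0 < ‖k‖ ^ 2 := by
    have := norm_pos_iff.2 hk
    positivity
  have h := integral_exp_mul_Ioi (a := -(‖k‖ ^ 2 / 2)) (by linarith) 1
  have h2 : ∫ t in Ioi (1 : ℝ), Real.exp (-(t / 2) * ‖k‖ ^ 2) =
      ∫ t in Ioi (1 : ℝ), Real.exp (-(‖k‖ ^ 2 / 2) * t) := by
    refine integral_congr_ae (Filter.Eventually.of_forall fun t => ?_)
    simp only
    congr 1
    ring
  rw [h2, h, mul_one]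
  field_simp

theorem lap_ae : ∀ᵐ k : E3, k ≠ 0 := by
  rw [ae_iff]
  simp

theorem int_sing : Integrable (fun k : E3 => (‖k‖ ^ 2)⁻¹ * Real.exp (-(‖k‖ ^ 2 / 2))) := by
  have h := (lap_prod.integral_prod_left).const_mul (1 / 2)
  refine h.congr ?_
  filter_upwards [lap_ae] with k hk
  rw [lap_tint hk]
  ring

theorem lap_inner {t : ℝ} (ht : 0 < t) (x : E3) :
    ∫ k : E3, Real.exp (-(t / 2) * ‖k‖ ^ 2) * Real.cos (inner ℝ k x) =
      (2 * Real.pi) ^ (3 / 2 : ℝ) * t ^ (-(3 / 2) : ℝ) * Real.exp (-(‖x‖ ^ 2 / 2 / t)) := by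
  have hb : 0 < (((t / 2 : ℝ)) : ℂ).re := by
    rw [Complex.ofReal_re]
    linarith
  have h := GaussianFourier.integral_cexp_neg_mul_sq_norm_add (V := E3) hb Complex.I x
  have hint := GaussianFourier.integrable_cexp_neg_mul_sq_norm_add (V := E3) hb Complex.I x
  have h1 := Complex.reCLM.integral_comp_comm hint
  rw [h] at h1
  have hpi := Real.pi_pos
  have h2 : ((Real.pi : ℂ) / ((t / 2 : ℝ) : ℂ)) ^ (((Module.finrank ℝ E3 : ℕ) : ℂ) / 2) *
      Complex.exp (Complex.I ^ 2 * (‖x‖ : ℂ) ^ 2 / (4 * ((t / 2 : ℝ) : ℂ))) =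
      (((2 * Real.pi) ^ (3 / 2 : ℝ) * t ^ (-(3 / 2) : ℝ) * Real.exp (-(‖x‖ ^ 2 / 2 / t)) : ℝ) : ℂ) := by
    rw [finrank_euclideanSpace_fin, ← lap_pow ht, Complex.ofReal_mul, Complex.ofReal_exp,
      Complex.ofReal_cpow (by positivity)]
    congr 1
    · push_cast
      rfl
    · congr 1
      rw [Complex.I_sq]
      have ht' : (t : ℂ) ≠ 0 := by exact_mod_cast ht.ne'
      push_cast
      field_simp
      ring
  rw [h2] at h1
  rw [Complex.reCLM_apply, Complex.ofReal_re] at h1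
  rw [← h1]
  refine integral_congr_ae (Filter.Eventually.of_forall fun k => ?_)
  simp only [Complex.reCLM_apply, Complex.exp_re]
  have e1 : (-((t / 2 : ℝ) : ℂ) * (‖k‖ : ℂ) ^ 2 + Complex.I * ((inner ℝ x k : ℝ) : ℂ)).re =
      -(t / 2) * ‖k‖ ^ 2 := by
    rw [← Complex.ofReal_pow, ← Complex.ofReal_neg, ← Complex.ofReal_mul, Complex.add_re,
      Complex.ofReal_re, Complex.I_mul_re, Complex.ofReal_im]
    ring
  have e2 : (-((t / 2 : ℝ) : ℂ) * (‖k‖ : ℂ) ^ 2 + Complex.I * ((inner ℝ x k : ℝ) : ℂ)).im =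
      inner ℝ k x := by
    rw [← Complex.ofReal_pow, ← Complex.ofReal_neg, ← Complex.ofReal_mul, Complex.add_im,
      Complex.ofReal_im, Complex.I_mul_im, Complex.ofReal_re, real_inner_comm]
    ring
  rw [e1, e2]

theorem four_sing (x : E3) :
    ∫ k : E3, (‖k‖ ^ 2)⁻¹ * Real.exp (-(‖k‖ ^ 2 / 2)) * Real.cos (inner ℝ k x)
      = (2 * Real.pi) ^ (3 / 2 : ℝ) * ∫ w in (0 : ℝ)..1, Real.exp (-(‖x‖ ^ 2 / 2 * w ^ 2)) := by
  have hprod : Integrable (Function.uncurry fun (k : E3) (t : ℝ) =>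
      Real.cos (inner ℝ k x) * Real.exp (-(t / 2) * ‖k‖ ^ 2))
      ((volume : Measure E3).prod ((volume : Measure ℝ).restrict (Ioi 1))) := by
    refine lap_prod.bdd_mul (c := 1) (f := fun p : E3 × ℝ => Real.cos (inner ℝ p.1 x))
      (Continuous.aestronglyMeasurable (by fun_prop)) (Filter.Eventually.of_forall fun p => ?_)
    rw [Real.norm_eq_abs]
    exact Real.abs_cos_le_one _
  have h1 : ∫ k : E3, (‖k‖ ^ 2)⁻¹ * Real.exp (-(‖k‖ ^ 2 / 2)) * Real.cos (inner ℝ k x) =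
      1 / 2 * ∫ k : E3, ∫ t in Ioi (1 : ℝ),
        Real.cos (inner ℝ k x) * Real.exp (-(t / 2) * ‖k‖ ^ 2) := by
    rw [← integral_const_mul]
    refine integral_congr_ae ?_
    filter_upwards [lap_ae] with k hk
    rw [integral_const_mul, lap_tint hk]
    ring
  rw [h1, integral_integral_swap hprod]
  have h2 : ∫ t in Ioi (1 : ℝ), ∫ k : E3,
      Real.cos (inner ℝ k x) * Real.exp (-(t / 2) * ‖k‖ ^ 2) =
      (2 * Real.pi) ^ (3 / 2 : ℝ) *
        ∫ t in Ioi (1 : ℝ), t ^ (-(3 / 2) : ℝ) * Real.exp (-(‖x‖ ^ 2 / 2 / t)) := by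
    rw [← integral_const_mul]
    refine setIntegral_congr_fun measurableSet_Ioi fun t ht => ?_
    have ht0 : 0 < t := lt_trans zero_lt_one ht
    show ∫ k : E3, Real.cos (inner ℝ k x) * Real.exp (-(t / 2) * ‖k‖ ^ 2) =
      (2 * Real.pi) ^ (3 / 2 : ℝ) * (t ^ (-(3 / 2) : ℝ) * Real.exp (-(‖x‖ ^ 2 / 2 / t)))
    rw [← mul_assoc, ← lap_inner ht0 x]
    refine integral_congr_ae (Filter.Eventually.of_forall fun k => ?_)
    exact mul_comm _ _
  rw [h2, subst_w]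
  ring

end Pool.Agent.H50.UD
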