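import Pool.Agent.H50.UD.Defs

/-!
# UD-UInt: `∫ ∫_1^∞ e^{-|x|²w²/2} dw dx = (2π)^{3/2}/2`

`∫_x e^{-|x|²w²/2} dx = (2π)^{3/2} w⁻³` (`GaussianFourier.integral_rexp_neg_mul_sq_norm`, `b = w²/2`, `finrank = 3`;
`(2π/w²)^{3/2} = (2π)^{3/2} w⁻³`), integrable over `w ∈ (1,∞)` (`integrableOn_Ioi_rpow_of_lt`, `integral_Ioi_rpow_of_lt`:
`∫_1^∞ w⁻³ dw = 1/2`). So `(x,w) ↦ e^{-|x|²w²/2}` is integrable for `volume.prod (volume.restrict (Ioi 1))`
(`integrable_prod_iff'`), `tail_int` is `Integrable.integral_prod_left`, `tail_val` is `integral_integral_swap`.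
-/

open MeasureTheory Set
open scoped ENNReal

namespace Pool.Agent.H50.UD

open Pool.Agent.H75.LO (E3)

/-- the inner integral -/
private theorem inner_int {w : ℝ} (hw : 0 < w) :
    ∫ x : E3, Real.exp (-(‖x‖ ^ 2 / 2 * w ^ 2)) =
      (2 * Real.pi) ^ (3 / 2 : ℝ) * w ^ (-3 : ℝ) := by
  have hb : 0 < w ^ 2 / 2 := by positivity
  have h := GaussianFourier.integral_rexp_neg_mul_sq_norm (V := E3) hb
  have h1 : ∀ x : E3, Real.exp (-(‖x‖ ^ 2 / 2 * w ^ 2)) =
      Real.exp (-(w ^ 2 / 2) * ‖x‖ ^ 2) := by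
    intro x
    congr 1
    ring
  simp only [h1]
  rw [h]
  have h2 : (Module.finrank ℝ E3 : ℝ) = 3 := by
    simp
  rw [h2]
  have h3 : Real.pi / (w ^ 2 / 2) = 2 * Real.pi * (w ^ 2)⁻¹ := by
    field_simp
  rw [h3, Real.mul_rpow (by positivity) (by positivity)]
  congr 1
  rw [Real.inv_rpow (by positivity), ← Real.rpow_natCast w 2, ← Real.rpow_mul hw.le,
    ← Real.rpow_neg hw.le]
  congr 1
  norm_num

private theorem inner_integrable {w : ℝ} (hw : 0 < w) :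
    Integrable (fun x : E3 => Real.exp (-(‖x‖ ^ 2 / 2 * w ^ 2))) := by
  apply Integrable.of_integral_ne_zero
  rw [inner_int hw]
  positivity

private theorem prod_int : Integrable (fun p : E3 × ℝ => Real.exp (-(‖p.1‖ ^ 2 / 2 * p.2 ^ 2)))
    (volume.prod (volume.restrict (Ioi (1 : ℝ)))) := by
  rw [integrable_prod_iff' (by
    apply Continuous.aestronglyMeasurable
    fun_prop)]
  constructor
  · refine (ae_restrict_iff' measurableSet_Ioi).2 (Filter.Eventually.of_forall fun w hw => ?_)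
    exact inner_integrable (lt_trans one_pos hw)
  · have h : IntegrableOn (fun w : ℝ => (2 * Real.pi) ^ (3 / 2 : ℝ) * w ^ (-3 : ℝ)) (Ioi 1) :=
      (integrableOn_Ioi_rpow_of_lt (by norm_num) one_pos).const_mul _
    refine h.congr ?_
    refine (ae_restrict_iff' measurableSet_Ioi).2 (Filter.Eventually.of_forall fun w hw => ?_)
    simp only [Real.norm_eq_abs, Real.abs_exp]
    exact (inner_int (lt_trans one_pos hw)).symm

theorem tail_int : Integrable (fun x : E3 =>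
    ∫ w in Ioi (1 : ℝ), Real.exp (-(‖x‖ ^ 2 / 2 * w ^ 2))) :=
  prod_int.integral_prod_left

theorem tail_val : ∫ x : E3, ∫ w in Ioi (1 : ℝ), Real.exp (-(‖x‖ ^ 2 / 2 * w ^ 2))
    = (2 * Real.pi) ^ (3 / 2 : ℝ) / 2 := by
  rw [integral_integral_swap (f := fun (x : E3) (w : ℝ) => Real.exp (-(‖x‖ ^ 2 / 2 * w ^ 2)))
    prod_int]
  have h : ∫ w in Ioi (1 : ℝ), ∫ x : E3, Real.exp (-(‖x‖ ^ 2 / 2 * w ^ 2)) =
      ∫ w in Ioi (1 : ℝ), (2 * Real.pi) ^ (3 / 2 : ℝ) * w ^ (-3 : ℝ) := by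
    apply setIntegral_congr_fun measurableSet_Ioi
    intro w hw
    exact inner_int (lt_trans one_pos hw)
  rw [h, integral_const_mul, integral_Ioi_rpow_of_lt (by norm_num) one_pos]
  norm_num
  ring

end Pool.Agent.H50.UD
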