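import Pool.Agent.H50.UD.Core
import Pool.Agent.H50.UD.Kin
import Pool.Agent.H50.UD.Jm
import Pool.Agent.H50.UD.Lap
import Pool.Agent.H50.UD.UInt

/-!
# UD-Fin: the certificate and the constant
-/

open MeasureTheory Set
open scoped ENNReal

namespace Pool.Agent.H50.UD

open Pool.Agent.H75.LO

theorem bt_nonneg : 0 ≤ bt := Real.sqrt_nonneg _

theorem bt_pos : 0 < bt := Real.sqrt_pos.2 (by positivity)

theorem bt_mul : bt * (2 * Real.pi) ^ (3 / 2 : ℝ) = 4 * Real.pi := by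
  have hp := Real.pi_pos
  have h1 : (2 * Real.pi) ^ (3 / 2 : ℝ) = 2 * Real.pi * Real.sqrt (2 * Real.pi) := by
    rw [Real.sqrt_eq_rpow, show (3 / 2 : ℝ) = 1 + 1 / 2 by norm_num,
      Real.rpow_add (by positivity), Real.rpow_one]
  rw [h1]
  unfold bt
  have h2 : Real.sqrt (2 / Real.pi) * Real.sqrt (2 * Real.pi) = 2 := by
    rw [← Real.sqrt_mul (by positivity)]
    have : 2 / Real.pi * (2 * Real.pi) = 2 ^ 2 := by field_simp
    rw [this, Real.sqrt_sq (by norm_num)]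
  calc Real.sqrt (2 / Real.pi) * (2 * Real.pi * Real.sqrt (2 * Real.pi))
      = 2 * Real.pi * (Real.sqrt (2 / Real.pi) * Real.sqrt (2 * Real.pi)) := by ring
    _ = 4 * Real.pi := by rw [h2]; ring

theorem wt_nonneg (k : E3) : 0 ≤ wt k := by
  unfold wt
  have h1 : 0 ≤ (‖k‖ ^ 2)⁻¹ + S (‖k‖ ^ 2) := by
    by_cases hk : ‖k‖ = 0
    · rw [hk]
      unfold S
      norm_num
    · have hk2 : 0 < ‖k‖ ^ 2 := by positivity
      have h2 := Q_nonneg hk2.le
      have h3 : (‖k‖ ^ 2)⁻¹ + S (‖k‖ ^ 2) = (‖k‖ ^ 2)⁻¹ * (1 + ‖k‖ ^ 2 * S (‖k‖ ^ 2)) := by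
        field_simp
      rw [h3]
      positivity
  have := bt_nonneg
  positivity

theorem wt_eq (k : E3) : wt k = bt * (2 * Real.pi) ^ (-(3 / 2) : ℝ) *
    ((‖k‖ ^ 2)⁻¹ * Real.exp (-(‖k‖ ^ 2 / 2)) + S (‖k‖ ^ 2) * Real.exp (-(‖k‖ ^ 2 / 2))) := by
  unfold wt
  ring

theorem wt_int : Integrable wt := by
  have h := (int_sing.add int_S).const_mul (bt * (2 * Real.pi) ^ (-(3 / 2) : ℝ))
  refine h.congr (Filter.Eventually.of_forall fun k => ?_)
  rw [wt_eq]
  rfl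

theorem wt_four (x : E3) : ∫ k : E3, wt k * Real.cos (inner ℝ k x) = W ‖x‖ := by
  have hc : Continuous fun k : E3 => Real.cos (inner ℝ k x) := by fun_prop
  have hb : ∀ᵐ k : E3, ‖Real.cos (inner ℝ k x)‖ ≤ 1 := Filter.Eventually.of_forall fun k => by
    rw [Real.norm_eq_abs]; exact Real.abs_cos_le_one _
  have h1 : Integrable fun k : E3 => (‖k‖ ^ 2)⁻¹ * Real.exp (-(‖k‖ ^ 2 / 2)) *
      Real.cos (inner ℝ k x) := int_sing.mul_bdd hc.aestronglyMeasurable hb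
  have h2 : Integrable fun k : E3 => S (‖k‖ ^ 2) * Real.exp (-(‖k‖ ^ 2 / 2)) *
      Real.cos (inner ℝ k x) := int_S.mul_bdd hc.aestronglyMeasurable hb
  have h3 : ∀ k : E3, wt k * Real.cos (inner ℝ k x) = bt * (2 * Real.pi) ^ (-(3 / 2) : ℝ) *
      ((‖k‖ ^ 2)⁻¹ * Real.exp (-(‖k‖ ^ 2 / 2)) * Real.cos (inner ℝ k x) +
        S (‖k‖ ^ 2) * Real.exp (-(‖k‖ ^ 2 / 2)) * Real.cos (inner ℝ k x)) := by
    intro k
    rw [wt_eq]
    ring
  simp only [h3]
  rw [integral_const_mul, integral_add h1 h2, four_sing, four_S]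
  have h4 : (2 * Real.pi) ^ (-(3 / 2) : ℝ) * (2 * Real.pi) ^ (3 / 2 : ℝ) = 1 := by
    rw [← Real.rpow_add (by positivity)]
    norm_num
  unfold W
  calc _ = bt * ((2 * Real.pi) ^ (-(3 / 2) : ℝ) * (2 * Real.pi) ^ (3 / 2 : ℝ)) *
        ((∫ w in (0 : ℝ)..1, Real.exp (-(‖x‖ ^ 2 / 2 * w ^ 2)))
          + Real.exp (-(‖x‖ ^ 2 / 2)) * Pz (‖x‖ ^ 2 / 2)) := by ring
    _ = _ := by rw [h4, mul_one]

theorem W_zero : W 0 = bt * cB := by
  unfold W cB Pz
  simp
  norm_num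

/-- the scaled measure -/
noncomputable def kap (c : ℝ) : Measure E3 :=
  ENNReal.ofReal c • (volume.withDensity (fun k => ENNReal.ofReal (wt k))).map (fun k => c • k)

theorem wt_meas : Measurable wt := by
  unfold wt S
  fun_prop

instance kap_finite (c : ℝ) : IsFiniteMeasure (kap c) := by
  have h1 : IsFiniteMeasure (volume.withDensity (fun k : E3 => ENNReal.ofReal (wt k))) := by
    refine ⟨?_⟩
    rw [withDensity_apply _ MeasurableSet.univ, Measure.restrict_univ,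
      ← ofReal_integral_eq_lintegral_ofReal wt_int (Filter.Eventually.of_forall wt_nonneg)]
    exact ENNReal.ofReal_lt_top
  unfold kap
  exact Measure.smul_finite _ ENNReal.ofReal_ne_top

theorem FF_kap {c : ℝ} (hc : 0 < c) (x : E3) : FF (kap c) x = c * W (c * ‖x‖) := by
  unfold FF kap
  rw [integral_smul_measure, ENNReal.toReal_ofReal hc.le, smul_eq_mul]
  congr 1
  have hcont : Continuous fun k : E3 => Real.cos (inner ℝ k x) := by fun_prop
  rw [integral_map (by fun_prop) hcont.aestronglyMeasurable]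
  rw [integral_withDensity_eq_integral_toReal_smul wt_meas.ennreal_ofReal
    (Filter.Eventually.of_forall fun _ => ENNReal.ofReal_lt_top)]
  have h1 : c * ‖x‖ = ‖c • x‖ := by rw [norm_smul, Real.norm_of_nonneg hc.le]
  rw [h1, ← wt_four]
  refine integral_congr_ae (Filter.Eventually.of_forall fun k => ?_)
  simp only
  rw [ENNReal.toReal_ofReal (wt_nonneg k), smul_eq_mul, inner_smul_left, inner_smul_right]
  simp

theorem kap_real {c : ℝ} (hc : 0 < c) : (kap c).real univ = c * (bt * cB) := by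
  rw [← FF_zero, FF_kap hc, norm_zero, mul_zero, W_zero]

theorem FF_kap_le {c : ℝ} (hc : 0 < c) (x : E3) (hx : x ≠ 0) : FF (kap c) x ≤ ‖x‖⁻¹ := by
  rw [FF_kap hc]
  have h1 : 0 < ‖x‖ := norm_pos_iff.2 hx
  have h2 := W_le (r := c * ‖x‖) (by positivity)
  calc c * W (c * ‖x‖) ≤ c * (c * ‖x‖)⁻¹ := by gcongr
    _ = ‖x‖⁻¹ := by field_simp

/-- `U(x) = 1/|x| - W(|x|)` -/
noncomputable def U (x : E3) : ℝ := ‖x‖⁻¹ - W ‖x‖

theorem U_ae : ∀ᵐ x : E3, U x = bt * ((∫ w in Ioi (1 : ℝ), Real.exp (-(‖x‖ ^ 2 / 2 * w ^ 2)))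
      - Real.exp (-(‖x‖ ^ 2 / 2)) * Pz (‖x‖ ^ 2 / 2)) := by
  have h0 : ∀ᵐ x : E3, x ≠ 0 := by
    rw [ae_iff]
    simp
  filter_upwards [h0] with x hx
  exact W_compl (norm_pos_iff.2 hx)

theorem U_nonneg : ∀ᵐ x : E3, 0 ≤ U x := by
  have h0 : ∀ᵐ x : E3, x ≠ 0 := by
    rw [ae_iff]
    simp
  filter_upwards [h0] with x hx
  have := W_le (norm_pos_iff.2 hx)
  unfold U
  linarith

theorem U_int : Integrable U :=
  ((tail_int.sub int_Pz).const_mul bt).congr (U_ae.mono fun x hx => hx.symm)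

theorem U_val : ∫ x, U x = 2 * Real.pi * cA := by
  rw [integral_congr_ae U_ae, integral_const_mul, integral_sub tail_int int_Pz, tail_val, mom_S]
  have h := bt_mul
  have h2 : bt * ((2 * Real.pi) ^ (3 / 2 : ℝ) / 2 -
      (2 * Real.pi) ^ (3 / 2 : ℝ) * (450745513 / 27990001524)) =
      (bt * (2 * Real.pi) ^ (3 / 2 : ℝ)) * (1 / 2 - 450745513 / 27990001524) := by ring
  rw [h2, h]
  unfold cA
  ring

theorem U_scaled {c : ℝ} (hc : 0 < c) :
    ∫⁻ x : E3, ENNReal.ofReal (‖x‖⁻¹ - FF (kap c) x) ≤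
      ENNReal.ofReal (2 * Real.pi * cA / c ^ 2) := by
  have h1 : ∀ x : E3, ‖x‖⁻¹ - FF (kap c) x = c * U (c • x) := by
    intro x
    rw [FF_kap hc]
    unfold U
    rw [norm_smul, Real.norm_of_nonneg hc.le, mul_inv]
    field_simp
  simp only [h1]
  have h2 : Integrable fun x : E3 => U (c • x) := (integrable_comp_smul_iff volume U hc.ne').2 U_int
  have h3 : ∀ᵐ x : E3, 0 ≤ U (c • x) :=
    (Measure.quasiMeasurePreserving_smul volume hc.ne').ae U_nonneg
  rw [← ofReal_integral_eq_lintegral_ofReal (h2.const_mul c)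
    (h3.mono fun x hx => mul_nonneg hc.le hx)]
  refine ENNReal.ofReal_le_ofReal (le_of_eq ?_)
  rw [integral_const_mul, Measure.integral_comp_smul, U_val, finrank_euclideanSpace_fin,
    smul_eq_mul, abs_of_pos (by positivity)]
  field_simp

end Pool.Agent.H50.UD
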