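import Pool.Agent.H50.UD.Fin

/-!
# UD-Main: the inequalities
-/

open MeasureTheory Set
open scoped ENNReal

namespace Pool.Agent.H50.UD

open Pool.Agent.H75.LO

theorem bt_le : bt ≤ 79789 / 100000 := by
  unfold bt
  rw [Real.sqrt_le_left (by norm_num)]
  rw [div_le_iff₀ Real.pi_pos]
  have := Real.pi_gt_d6
  nlinarith

/-- the inequality at scale `l` -/
theorem ineq_lam {q n : ℕ} {ψ : Wave q (n + 1)} (h : Admissible ψ)
    (h2 : Integrable (fun x => rho ψ x ^ 2)) {l : ℝ} (hl : 0 < l) :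
    -(2897 / 6000 : ℝ) * ((∫ x, rho ψ x ^ 2) / l ^ 2 + 2 * l * ((n : ℝ) + 1)) ≤ indirect ψ := by
  have hc : 0 < 25094 / 10000 * l := by positivity
  have hA : (0 : ℝ) ≤ cA := by unfold cA; norm_num
  have hpi := Real.pi_pos
  have h1 := core h h2 (kap (25094 / 10000 * l)) (FF_kap_le hc)
    (v := 2 * Real.pi * cA / (25094 / 10000 * l) ^ 2) (by positivity) (U_scaled hc)
  rw [kap_real hc] at h1
  have hρ2 : 0 ≤ ∫ x, rho ψ x ^ 2 := integral_nonneg fun x => sq_nonneg _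
  have hn : (0 : ℝ) ≤ (n : ℝ) + 1 := by positivity
  refine le_trans ?_ h1
  have e1 : 2 * Real.pi * cA / (25094 / 10000 * l) ^ 2 * (∫ x, rho ψ x ^ 2) ≤
      2897 / 3000 * ((∫ x, rho ψ x ^ 2) / l ^ 2) := by
    have h3 : 2 * Real.pi * cA / (25094 / 10000) ^ 2 ≤ 2897 / 3000 := by
      have := Real.pi_lt_d6
      unfold cA
      rw [div_le_iff₀ (by norm_num)]
      nlinarith
    calc 2 * Real.pi * cA / (25094 / 10000 * l) ^ 2 * (∫ x, rho ψ x ^ 2)
        = (2 * Real.pi * cA / (25094 / 10000) ^ 2) * ((∫ x, rho ψ x ^ 2) / l ^ 2) := by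
          field_simp
      _ ≤ _ := mul_le_mul_of_nonneg_right h3 (by positivity)
  have e2 : ((n : ℝ) + 1) * (25094 / 10000 * l * (bt * cB)) ≤
      2897 / 3000 * (2 * l * ((n : ℝ) + 1)) := by
    have h3 : 25094 / 10000 * (bt * cB) ≤ 2897 / 3000 * 2 := by
      have := bt_le
      unfold cB
      nlinarith
    calc ((n : ℝ) + 1) * (25094 / 10000 * l * (bt * cB))
        = (25094 / 10000 * (bt * cB)) * (l * ((n : ℝ) + 1)) := by ring
      _ ≤ (2897 / 3000 * 2) * (l * ((n : ℝ) + 1)) := mul_le_mul_of_nonneg_right h3 (by positivity)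
      _ = _ := by ring
  linarith

theorem rho_integral {q n : ℕ} {ψ : Wave q (n + 1)} (h : IsState ψ) :
    Integrable (rho ψ) ∧ ∫ x, rho ψ x = (n : ℝ) + 1 := by
  obtain ⟨ρ', hρm, hρ', hmass, -⟩ := nu_exists h
  have hm : AEStronglyMeasurable (rho ψ) volume := by
    have : (fun x => (ρ' x).toReal) =ᵐ[volume] rho ψ := by
      filter_upwards [hρ'] with x hx
      rw [hx, ENNReal.toReal_ofReal (rho_nonneg ψ x)]
    exact (hρm.ennreal_toReal.aestronglyMeasurable).congr this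
  have h1 : ∫⁻ x, ENNReal.ofReal (rho ψ x) = ENNReal.ofReal ((n : ℝ) + 1) := by
    rw [← hmass]
    refine lintegral_congr_ae ?_
    filter_upwards [hρ'] with x hx
    exact hx.symm
  refine ⟨⟨hm, ?_⟩, ?_⟩
  · rw [hasFiniteIntegral_iff_ofReal (Filter.Eventually.of_forall fun x => rho_nonneg ψ x), h1]
    exact ENNReal.ofReal_lt_top
  · rw [integral_eq_lintegral_of_nonneg_ae (Filter.Eventually.of_forall fun x => rho_nonneg ψ x) hm,
      h1, ENNReal.toReal_ofReal (by positivity)]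

/-- pointwise form -/
theorem ineq_loc {q n : ℕ} {ψ : Wave q (n + 1)} (h : Admissible ψ)
    (h2 : Integrable (fun x => rho ψ x ^ 2)) {l K : ℝ} (hl : 0 < l)
    (hK : ∀ᵐ x : E3, rho ψ x ^ 2 / l ^ 2 + 2 * l * rho ψ x ≤ K * rho ψ x ^ (4 / 3 : ℝ)) :
    -(2897 / 6000 * K) * ∫ x, rho ψ x ^ (4 / 3 : ℝ) ≤ indirect ψ := by
  obtain ⟨hi, hv⟩ := rho_integral h.state
  have h1 := ineq_lam h h2 hl
  have h3 : (∫ x, rho ψ x ^ 2) / l ^ 2 + 2 * l * ((n : ℝ) + 1) ≤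
      K * ∫ x, rho ψ x ^ (4 / 3 : ℝ) := by
    rw [← hv, ← integral_const_mul, ← integral_const_mul, ← integral_div, ← integral_add]
    · exact integral_mono_ae ((h2.div_const _).add (hi.const_mul _)) (h.rho43.const_mul K) hK
    · exact h2.div_const _
    · exact hi.const_mul _
  nlinarith

/-- `-I ≤ 1.4485 (∫ρ²)^{1/3} N^{2/3}` -/
theorem ineq_N {q n : ℕ} {ψ : Wave q (n + 1)} (h : Admissible ψ)
    (h2 : Integrable (fun x => rho ψ x ^ 2)) :
    -(14485 / 10000 : ℝ) * ((∫ x, rho ψ x ^ 2) ^ (1 / 3 : ℝ) * ((n : ℝ) + 1) ^ (2 / 3 : ℝ))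
      ≤ indirect ψ := by
  obtain ⟨hi, hv⟩ := rho_integral h.state
  have hn : (0 : ℝ) < (n : ℝ) + 1 := by positivity
  have hpos : 0 < ∫ x, rho ψ x ^ 2 := by
    refine lt_of_le_of_ne (integral_nonneg fun x => sq_nonneg _) fun h0 => ?_
    have h3 := (integral_eq_zero_iff_of_nonneg (fun x => sq_nonneg (rho ψ x)) h2).1 h0.symm
    have h4 : ∫ x, rho ψ x = 0 := by
      rw [integral_eq_zero_iff_of_nonneg (fun x => rho_nonneg ψ x) hi]
      filter_upwards [h3] with x hx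
      exact pow_eq_zero_iff (two_ne_zero) |>.1 hx
    rw [hv] at h4
    exact hn.ne' h4
  obtain ⟨R, hR⟩ : ∃ R, R = ∫ x, rho ψ x ^ 2 := ⟨_, rfl⟩
  rw [← hR] at hpos ⊢
  have hl : 0 < (R / ((n : ℝ) + 1)) ^ (1 / 3 : ℝ) := by positivity
  have h1 := ineq_lam h h2 hl
  rw [← hR] at h1
  obtain ⟨a, ha⟩ : ∃ a, a = R ^ (1 / 3 : ℝ) := ⟨_, rfl⟩
  obtain ⟨b, hb⟩ : ∃ b, b = ((n : ℝ) + 1) ^ (1 / 3 : ℝ) := ⟨_, rfl⟩
  have ha0 : 0 < a := by rw [ha]; positivity
  have hb0 : 0 < b := by rw [hb]; positivity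
  have ha3 : R = a ^ 3 := by
    rw [ha, ← Real.rpow_natCast, ← Real.rpow_mul hpos.le]
    norm_num
  have hb3 : ((n : ℝ) + 1) = b ^ 3 := by
    rw [hb, ← Real.rpow_natCast, ← Real.rpow_mul hn.le]
    norm_num
  have hb2 : ((n : ℝ) + 1) ^ (2 / 3 : ℝ) = b ^ 2 := by
    rw [hb, ← Real.rpow_natCast, ← Real.rpow_mul hn.le]
    norm_num
  have hl2 : (R / ((n : ℝ) + 1)) ^ (1 / 3 : ℝ) = a / b := by
    rw [Real.div_rpow hpos.le hn.le, ← ha, ← hb]
  rw [hl2] at h1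
  rw [hb2, ← ha]
  refine le_trans (le_of_eq ?_) h1
  rw [ha3, hb3]
  field_simp
  ring

theorem rpow43 {s : ℝ} (hs : 0 ≤ s) : (s ^ 3) ^ (4 / 3 : ℝ) = s ^ 4 := by
  rw [← Real.rpow_natCast s 3, ← Real.rpow_mul hs]
  norm_num

/-- uniform densities -/
theorem uniform {q n : ℕ} {ψ : Wave q (n + 1)} (h : Admissible ψ) {Om : Set E3} {a : ℝ}
    (hu : ∀ᵐ x : E3, rho ψ x = Om.indicator (fun _ => a) x) :
    -(14485 / 10000 : ℝ) * ∫ x, rho ψ x ^ (4 / 3 : ℝ) ≤ indirect ψ := by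
  obtain ⟨hi, hv⟩ := rho_integral h.state
  have hn : (0 : ℝ) < (n : ℝ) + 1 := by positivity
  have hval : ∀ᵐ x : E3, rho ψ x = 0 ∨ rho ψ x = a := by
    filter_upwards [hu] with x hx
    by_cases hx2 : x ∈ Om
    · right; rw [hx, indicator_of_mem hx2]
    · left; rw [hx, indicator_of_notMem hx2]
  have ha : 0 < a := by
    by_contra hle
    have h0 : ∀ᵐ x : E3, rho ψ x = 0 := by
      filter_upwards [hval] with x hx
      rcases hx with hx | hx
      · exact hx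
      · exact le_antisymm (by rw [hx]; exact not_lt.1 hle) (rho_nonneg ψ x)
    rw [integral_congr_ae h0, integral_zero] at hv
    exact hn.ne hv
  have h2 : Integrable (fun x => rho ψ x ^ 2) := by
    refine (hi.const_mul a).congr ?_
    filter_upwards [hval] with x hx
    rcases hx with hx | hx <;> rw [hx] <;> ring
  obtain ⟨s, hs⟩ : ∃ s, s = a ^ (1 / 3 : ℝ) := ⟨_, rfl⟩
  have hs0 : 0 < s := by rw [hs]; positivity
  have hs3 : a = s ^ 3 := by
    rw [hs, ← Real.rpow_natCast, ← Real.rpow_mul ha.le]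
    norm_num
  have h3 := ineq_loc h h2 (K := 3) hs0 (by
    filter_upwards [hval] with x hx
    rcases hx with hx | hx
    · rw [hx, Real.zero_rpow (by norm_num)]
      simp
    · rw [hx, hs3, rpow43 hs0.le]
      refine le_of_eq ?_
      field_simp
      ring)
  refine le_trans (le_of_eq ?_) h3
  ring

/-- densities with values in `{0} ∪ [a, R³ a]` -/
theorem factor_R {q n : ℕ} {ψ : Wave q (n + 1)} (h : Admissible ψ) {a R : ℝ} (ha : 0 < a)
    (hR : 1 ≤ R) (hu : ∀ᵐ x : E3, rho ψ x = 0 ∨ (a ≤ rho ψ x ∧ rho ψ x ≤ R ^ 3 * a)) :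
    -(14485 / 10000 * ((R ^ 2 + R + 1) / 3 * (2 / (R ^ 2 + R)) ^ (2 / 3 : ℝ))) *
      ∫ x, rho ψ x ^ (4 / 3 : ℝ) ≤ indirect ψ := by
  obtain ⟨hi, hv⟩ := rho_integral h.state
  have hR0 : 0 < R := by linarith
  have h2 : Integrable (fun x => rho ψ x ^ 2) := by
    refine (hi.const_mul (R ^ 3 * a)).mono' (hi.aestronglyMeasurable.pow 2) ?_
    filter_upwards [hu] with x hx
    have h0 := rho_nonneg ψ x
    rw [Real.norm_of_nonneg (sq_nonneg _)]
    rcases hx with hx | ⟨hx1, hx2⟩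
    · rw [hx]; simp
    · nlinarith
  obtain ⟨s, hs⟩ : ∃ s, s = a ^ (1 / 3 : ℝ) := ⟨_, rfl⟩
  have hs0 : 0 < s := by rw [hs]; positivity
  have hs3 : a = s ^ 3 := by
    rw [hs, ← Real.rpow_natCast, ← Real.rpow_mul ha.le]
    norm_num
  have hRR : 0 < (R ^ 2 + R) / 2 := by positivity
  obtain ⟨θ, hθ⟩ : ∃ θ, θ = ((R ^ 2 + R) / 2) ^ (1 / 3 : ℝ) := ⟨_, rfl⟩
  have hθ0 : 0 < θ := by rw [hθ]; positivity
  have hθ3 : θ ^ 3 = (R ^ 2 + R) / 2 := by
    rw [hθ, ← Real.rpow_natCast, ← Real.rpow_mul hRR.le]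
    norm_num
  have hθ2 : (2 / (R ^ 2 + R)) ^ (2 / 3 : ℝ) = (θ ^ 2)⁻¹ := by
    have e1 : 2 / (R ^ 2 + R) = ((R ^ 2 + R) / 2)⁻¹ := by rw [inv_div]
    have e2 : ((R ^ 2 + R) / 2) ^ (2 / 3 : ℝ) = θ ^ 2 := by
      rw [hθ, ← Real.rpow_natCast (((R ^ 2 + R) / 2) ^ (1 / 3 : ℝ)) 2, ← Real.rpow_mul hRR.le]
      norm_num
    rw [e1, Real.inv_rpow hRR.le, e2]
  have hl : 0 < θ * s := by positivity
  have h3 := ineq_loc h h2 (K := (R ^ 2 + R + 1) * (θ ^ 2)⁻¹) hl (by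
    filter_upwards [hu] with x hx
    rcases hx with hx | ⟨hx1, hx2⟩
    · rw [hx, Real.zero_rpow (by norm_num)]
      simp
    · obtain ⟨r, hr⟩ : ∃ r, r = (rho ψ x) ^ (1 / 3 : ℝ) := ⟨_, rfl⟩
      have h0 : 0 ≤ rho ψ x := rho_nonneg ψ x
      have hr0 : 0 ≤ r := by rw [hr]; positivity
      have hr3 : rho ψ x = r ^ 3 := by
        rw [hr, ← Real.rpow_natCast, ← Real.rpow_mul h0]
        norm_num
      rw [hr3, hs3] at hx1 hx2
      rw [hr3, rpow43 hr0]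
      obtain ⟨t, ht⟩ : ∃ t, t = r / s := ⟨_, rfl⟩
      have hrt : r = t * s := by rw [ht]; field_simp
      have ht0 : 0 ≤ t := by rw [ht]; positivity
      have hs33 : 0 < s ^ 3 := by positivity
      have ht1 : 1 ≤ t ^ 3 := by
        rw [hrt, mul_pow] at hx1
        nlinarith
      have ht2 : t ^ 3 ≤ R ^ 3 := by
        rw [hrt, mul_pow] at hx2
        nlinarith
      have ht1' : 1 ≤ t := by
        by_contra hlt
        have : t ^ 3 < 1 := pow_lt_one₀ ht0 (not_le.1 hlt) (by norm_num)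
        linarith
      have ht2' : t ≤ R := by
        by_contra hlt
        have : R ^ 3 < t ^ 3 := pow_lt_pow_left₀ (not_le.1 hlt) hR0.le (by norm_num)
        linarith
      have key : t ^ 3 + 2 * θ ^ 3 ≤ (R ^ 2 + R + 1) * t := by
        rw [hθ3]
        nlinarith [mul_nonneg (mul_nonneg (sub_nonneg.2 ht1') (sub_nonneg.2 ht2'))
          (by positivity : 0 ≤ t + R + 1)]
      have e : (r ^ 3) ^ 2 / (θ * s) ^ 2 + 2 * (θ * s) * r ^ 3 =
          (t ^ 3 + 2 * θ ^ 3) * ((θ ^ 2)⁻¹ * t ^ 3 * s ^ 4) := by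
        rw [hrt]; field_simp
      rw [e]
      calc (t ^ 3 + 2 * θ ^ 3) * ((θ ^ 2)⁻¹ * t ^ 3 * s ^ 4)
          ≤ ((R ^ 2 + R + 1) * t) * ((θ ^ 2)⁻¹ * t ^ 3 * s ^ 4) :=
            mul_le_mul_of_nonneg_right key (by positivity)
        _ = _ := by rw [hrt]; ring)
  refine le_trans (le_of_eq ?_) h3
  rw [hθ2]
  ring

end Pool.Agent.H50.UD
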