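import Pool.Agent.H50.UD.Defs

/-!
# UD-Pol: polynomial inequalities
-/

namespace Pool.Agent.H50.UD

theorem Q_eq (τ : ℝ) : 1 + τ * S τ =
    (5 * τ - 41) ^ 2 * (τ - 23) ^ 2 * (5 * τ ^ 2 + 40 * τ + 129) * (4 * τ ^ 2 + 9 * τ + 244)
      / 27990001524 := by
  unfold S
  ring

theorem Q_nonneg {τ : ℝ} (h : 0 ≤ τ) : 0 ≤ 1 + τ * S τ := by
  rw [Q_eq]
  positivity

/-- `5 + 2z - Π(z)(3+12z+4z²)`, times `6997500381` -/
noncomputable def Gp (z : ℝ) : ℝ :=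
  35730860340 + 16581626748 * z - 912497404 * z ^ 2 - 1869523888 * z ^ 3 - 212758400 * z ^ 4 + 5942288 * z ^ 5 + 5871120 * z ^ 6 + 8464640 * z ^ 7 - 1499200 * z ^ 8 + 64000 * z ^ 9

theorem Gp_1 {z : ℝ} (h1 : 0 ≤ z) (h2 : z ≤ 41 / 10) : 0 ≤ Gp z := by
  obtain ⟨u, hu⟩ : ∃ u, u = z - 0 := ⟨_, rfl⟩
  obtain ⟨v, hv⟩ : ∃ v, v = 41 / 10 - z := ⟨_, rfl⟩
  have hu0 : 0 ≤ u := by linarith
  have hv0 : 0 ≤ v := by linarith
  have h : Gp z * (41 / 10) ^ 9 = 35730860340 * (u ^ 0 * v ^ 9) + 1947812063634 / 5 * (u ^ 1 * v ^ 8) + 45371231205329 / 25 * (u ^ 2 * v ^ 7) + 583592499227109 / 125 * (u ^ 3 * v ^ 6) + 894236502671429 / 125 * (u ^ 4 * v ^ 5) + 40610549425987243 / 6250 * (u ^ 5 * v ^ 4) + 39361236049332193 / 12500 * (u ^ 6 * v ^ 3) + 38977476212848739 / 62500 * (u ^ 7 * v ^ 2) + 174403058582463 / 31250 * (u ^ 8 * v ^ 1) + 8575669994033 / 31250 * (u ^ 9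 * v ^ 0) := by
    rw [hu, hv]; unfold Gp; ring
  have h3 : 0 ≤ Gp z * (41 / 10) ^ 9 := by rw [h]; positivity
  exact nonneg_of_mul_nonneg_left h3 (by norm_num)

theorem Gp_2 {z : ℝ} (h1 : 41 / 10 ≤ z) (h2 : z ≤ 147 / 20) : 0 ≤ Gp z := by
  obtain ⟨u, hu⟩ : ∃ u, u = z - 41 / 10 := ⟨_, rfl⟩
  obtain ⟨v, hv⟩ : ∃ v, v = 147 / 20 - z := ⟨_, rfl⟩
  have hu0 : 0 ≤ u := by linarith
  have hv0 : 0 ≤ v := by linarith
  have h : Gp z * (13 / 4) ^ 9 = 8575669994033 / 31250 * (u ^ 0 * v ^ 9) + 57393867351 / 15625 * (u ^ 1 * v ^ 8) + 90041366098795499 / 250000 * (u ^ 2 * v ^ 7) + 770927091016408421 / 250000 * (u ^ 3 * v ^ 6) + 11071323003682011991 / 1000000 * (u ^ 4 * v ^ 5) + 21607265520499395631 / 1000000 * (u ^ 5 * v ^ 4) + 98638574601132144981 / 4000000 * (u ^ 6 * v ^ 3) + 65434458534764393159 / 4000000 * (u ^ 7 * v ^ 2) + 92802100057347098919 / 16000000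 * (u ^ 8 * v ^ 1) + 13512553456405299681 / 16000000 * (u ^ 9 * v ^ 0) := by
    rw [hu, hv]; unfold Gp; ring
  have h3 : 0 ≤ Gp z * (13 / 4) ^ 9 := by rw [h]; positivity
  exact nonneg_of_mul_nonneg_left h3 (by norm_num)

theorem Gp_3 {z : ℝ} (h1 : 147 / 20 ≤ z) (h2 : z ≤ 231 / 20) : 0 ≤ Gp z := by
  obtain ⟨u, hu⟩ : ∃ u, u = z - 147 / 20 := ⟨_, rfl⟩
  obtain ⟨v, hv⟩ : ∃ v, v = 231 / 20 - z := ⟨_, rfl⟩
  have hu0 : 0 ≤ u := by linarith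
  have hv0 : 0 ≤ v := by linarith
  have h : Gp z * (21 / 5) ^ 9 = 13512553456405299681 / 16000000 * (u ^ 0 * v ^ 9) + 31769100862222617117 / 3200000 * (u ^ 1 * v ^ 8) + 198488322924655976793 / 4000000 * (u ^ 2 * v ^ 7) + 109469225684053282761 / 800000 * (u ^ 3 * v ^ 6) + 1800902011479570659583 / 8000000 * (u ^ 4 * v ^ 5) + 1770700009984283140119 / 8000000 * (u ^ 5 * v ^ 4) + 96712596164902084353 / 800000 * (u ^ 6 * v ^ 3) + 114985652235756738849 / 4000000 * (u ^ 7 * v ^ 2) + 1146141125362185813 / 3200000 * (u ^ 8 * v ^ 1) + 96281632313025033 / 16000000 * (u ^ 9 * v ^ 0) := by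
    rw [hu, hv]; unfold Gp; ring
  have h3 : 0 ≤ Gp z * (21 / 5) ^ 9 := by rw [h]; positivity
  exact nonneg_of_mul_nonneg_left h3 (by norm_num)

theorem Gp_4 {z : ℝ} (h1 : 231 / 20 ≤ z) (h2 : z ≤ 49 / 4) : 0 ≤ Gp z := by
  obtain ⟨u, hu⟩ : ∃ u, u = z - 231 / 20 := ⟨_, rfl⟩
  obtain ⟨v, hv⟩ : ∃ v, v = 49 / 4 - z := ⟨_, rfl⟩
  have hu0 : 0 ≤ u := by linarith
  have hv0 : 0 ≤ v := by linarith
  have h : Gp z * (7 / 10) ^ 9 = 96281632313025033 / 16000000 * (u ^ 0 * v ^ 9) + 55839534818274669 / 16000000 * (u ^ 1 * v ^ 8) + 2144888147512438097 / 4000000 * (u ^ 2 * v ^ 7) + 3591313468779759653 / 800000 * (u ^ 3 * v ^ 6) + 24277474325707672699 / 1600000 * (u ^ 4 * v ^ 5) + 1780358661725677607 / 64000 * (u ^ 5 * v ^ 4) + 967795966730464753 / 32000 * (u ^ 6 * v ^ 3) + 125433127697343837 / 6400 * (u ^ 7 * v ^ 2) + 35980021854651021 / 5120 * (u ^ 8 * v ^ 1)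 + 1102818278181501 / 1024 * (u ^ 9 * v ^ 0) := by
    rw [hu, hv]; unfold Gp; ring
  have h3 : 0 ≤ Gp z * (7 / 10) ^ 9 := by rw [h]; positivity
  exact nonneg_of_mul_nonneg_left h3 (by norm_num)

theorem Gp_5 {z : ℝ} (h1 : 49 / 4 ≤ z) : 0 ≤ Gp z := by
  obtain ⟨u, hu⟩ : ∃ u, u = z - 49 / 4 := ⟨_, rfl⟩
  have hu0 : 0 ≤ u := by linarith
  have h : Gp z = 1102818278181501 / 1024 * u ^ 0 + 487385737982733 / 128 * u ^ 1 + 35119953422631 / 8 * u ^ 2 + 1891186073167 * u ^ 3 + 838520385505 / 2 * u ^ 4 + 54371468748 * u ^ 5 + 4314966400 * u ^ 6 + 207287040 * u ^ 7 + 5556800 * u ^ 8 + 64000 * u ^ 9 := by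
    rw [hu]; unfold Gp; ring
  rw [h]; positivity

theorem Gp_nonneg {z : ℝ} (h : 0 ≤ z) : 0 ≤ Gp z := by
  rcases le_total z (41 / 10) with h1 | h1
  · exact Gp_1 h h1
  rcases le_total z (147 / 20) with h2 | h2
  · exact Gp_2 h1 h2
  rcases le_total z (231 / 20) with h3 | h3
  · exact Gp_3 h2 h3
  rcases le_total z (49 / 4) with h4 | h4
  · exact Gp_4 h3 h4
  exact Gp_5 h4

/-- the key polynomial inequality -/
theorem pol {z : ℝ} (hz : 0 ≤ z) : Pz z ≤ (5 + 2 * z) / (3 + 12 * z + 4 * z ^ 2) := by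
  rw [le_div_iff₀ (by positivity)]
  have h := Gp_nonneg hz
  have h2 : (5 + 2 * z - Pz z * (3 + 12 * z + 4 * z ^ 2)) * 6997500381 = Gp z := by
    unfold Pz Gp; ring
  nlinarith

end Pool.Agent.H50.UD
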