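import Pool.Agent.H50.UD.Defs

/-!
# UD-Psd: positive definite kernels against a point process

`cos⟨k,x-y⟩ = cos⟨k,x⟩cos⟨k,y⟩ + sin⟨k,x⟩sin⟨k,y⟩`. All integrands are bounded and jointly continuous, all measures
finite, so Fubini (`integral_integral_swap`, twice; integrable because bounded measurable on a finite measure:
`Integrable.of_bound`) gives
`left = ∫_k [(∫cos⟨k,x⟩dν)² + (∫sin⟨k,x⟩dν)²] dκ`, `right = ∫_k ∫_ω [(Σ_i cos⟨k,X_i⟩)² + (Σ_i sin⟨k,X_i⟩)²] dP dκ`,
and for each `k`, by `hν`, `∫cos⟨k,x⟩dν = ∫ Σ_i cos⟨k,X_i⟩ dP`, and `(∫ f dP)² ≤ ∫ f² dP` for a probability measure and bounded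
measurable `f` (`0 ≤ ∫ (f - ∫f)²`, or variance, or `ConvexOn.map_integral_le`).
-/

open MeasureTheory Set
open scoped ENNReal

namespace Pool.Agent.H50.UD

open Pool.Agent.H75.LO (E3)

private theorem psd_int {α : Type*} [MeasurableSpace α] (μ : Measure α) [IsFiniteMeasure μ]
    {f : α → ℝ} (hf : Measurable f) (C : ℝ) (h : ∀ x, |f x| ≤ C) : Integrable f μ :=
  Integrable.of_bound hf.aestronglyMeasurable C (ae_of_all _ h)

private theorem psd_sq_le {α : Type*} [MeasurableSpace α] (μ : Measure α) [IsProbabilityMeasure μ]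
    {f : α → ℝ} (hf : Measurable f) (C : ℝ) (h : ∀ x, |f x| ≤ C) :
    (∫ x, f x ∂μ) ^ 2 ≤ ∫ x, f x ^ 2 ∂μ := by
  have i1 : Integrable f μ := psd_int μ hf C h
  have i2 : Integrable (fun x => f x ^ 2) μ := by
    apply psd_int μ (hf.pow_const 2) (C ^ 2)
    intro x
    rw [abs_pow]
    exact pow_le_pow_left₀ (abs_nonneg _) (h x) 2
  obtain ⟨m, hm⟩ : ∃ m, m = ∫ x, f x ∂μ := ⟨_, rfl⟩
  have h0 : 0 ≤ ∫ x, (f x - m) ^ 2 ∂μ := integral_nonneg fun x => sq_nonneg _
  have e : ∫ x, (f x - m) ^ 2 ∂μ = (∫ x, f x ^ 2 ∂μ) - m ^ 2 := by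
    have e1 : ∀ x, (f x - m) ^ 2 = (f x ^ 2 - 2 * m * f x) + m ^ 2 := fun x => by ring
    have i3 : Integrable (fun x => 2 * m * f x) μ := i1.const_mul _
    have i4 : Integrable (fun x => f x ^ 2 - 2 * m * f x) μ := i2.sub i3
    simp_rw [e1]
    rw [integral_add i4 (integrable_const _),
      integral_sub i2 i3, integral_const_mul, ← hm, integral_const]
    simp only [probReal_univ, smul_eq_mul, one_mul]
    ring
  rw [← hm]
  linarith

private theorem psd_cosm {α : Type*} [MeasurableSpace α] {f g : α → E3} (hf : Measurable f)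
    (hg : Measurable g) : Measurable fun a => Real.cos (inner ℝ (f a) (g a)) :=
  (hf.inner hg).cos

private theorem psd_sinm {α : Type*} [MeasurableSpace α] {f g : α → E3} (hf : Measurable f)
    (hg : Measurable g) : Measurable fun a => Real.sin (inner ℝ (f a) (g a)) :=
  (hf.inner hg).sin

private theorem psd_mc1 (k : E3) : Measurable fun x : E3 => Real.cos (inner ℝ k x) :=
  psd_cosm measurable_const measurable_id'

private theorem psd_ms1 (k : E3) : Measurable fun x : E3 => Real.sin (inner ℝ k x) :=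
  psd_sinm measurable_const measurable_id'

private noncomputable def psdA (ν : Measure E3) (k : E3) : ℝ := ∫ y, Real.cos (inner ℝ k y) ∂ν

private noncomputable def psdB (ν : Measure E3) (k : E3) : ℝ := ∫ y, Real.sin (inner ℝ k y) ∂ν

private theorem psdA_meas (ν : Measure E3) [IsFiniteMeasure ν] : Measurable (psdA ν) :=
  (StronglyMeasurable.integral_prod_right (f := fun k y : E3 => Real.cos (inner ℝ k y))
      (psd_cosm measurable_fst measurable_snd).stronglyMeasurable).measurable

private theorem psdB_meas (ν : Measure E3) [IsFiniteMeasure ν] : Measurable (psdB ν) :=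
  (StronglyMeasurable.integral_prod_right (f := fun k y : E3 => Real.sin (inner ℝ k y))
      (psd_sinm measurable_fst measurable_snd).stronglyMeasurable).measurable

private theorem psdA_le (ν : Measure E3) [IsFiniteMeasure ν] (k : E3) :
    |psdA ν k| ≤ ν.real univ := by
  have := norm_integral_le_of_norm_le_const (μ := ν) (C := 1)
    (f := fun y : E3 => Real.cos (inner ℝ k y)) (ae_of_all _ fun y => Real.abs_cos_le_one _)
  rw [one_mul] at this
  exact this

private theorem psdB_le (ν : Measure E3) [IsFiniteMeasure ν] (k : E3) :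
    |psdB ν k| ≤ ν.real univ := by
  have := norm_integral_le_of_norm_le_const (μ := ν) (C := 1)
    (f := fun y : E3 => Real.sin (inner ℝ k y)) (ae_of_all _ fun y => Real.abs_sin_le_one _)
  rw [one_mul] at this
  exact this

private theorem psd_ic (ν : Measure E3) [IsFiniteMeasure ν] (k : E3) :
    Integrable (fun x : E3 => Real.cos (inner ℝ k x)) ν :=
  psd_int ν (psd_mc1 k) 1 fun _ => Real.abs_cos_le_one _

private theorem psd_is (ν : Measure E3) [IsFiniteMeasure ν] (k : E3) :
    Integrable (fun x : E3 => Real.sin (inner ℝ k x)) ν :=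
  psd_int ν (psd_ms1 k) 1 fun _ => Real.abs_sin_le_one _

private theorem psd_st1 (κ : Measure E3) [IsFiniteMeasure κ] (ν : Measure E3) [IsFiniteMeasure ν]
    (x : E3) : ∫ y, (∫ k, Real.cos (inner ℝ k (x - y)) ∂κ) ∂ν
      = ∫ k, (Real.cos (inner ℝ k x) * psdA ν k + Real.sin (inner ℝ k x) * psdB ν k) ∂κ := by
  have hint : Integrable (Function.uncurry fun y k : E3 => Real.cos (inner ℝ k (x - y)))
      (ν.prod κ) := by
    apply psd_int _ _ 1 fun p => Real.abs_cos_le_one _
    exact psd_cosm (f := fun p : E3 × E3 => p.2) (g := fun p : E3 × E3 => x - p.1)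
      measurable_snd (measurable_const.sub measurable_fst)
  rw [integral_integral_swap hint]
  apply integral_congr_ae
  refine ae_of_all _ fun k => ?_
  have e1 : ∀ y : E3, Real.cos (inner ℝ k (x - y)) = Real.cos (inner ℝ k x)
      * Real.cos (inner ℝ k y) + Real.sin (inner ℝ k x) * Real.sin (inner ℝ k y) := by
    intro y
    rw [inner_sub_right, Real.cos_sub]
  simp_rw [e1]
  rw [integral_add ((psd_ic ν k).const_mul _) ((psd_is ν k).const_mul _), integral_const_mul,
    integral_const_mul]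
  rfl

private theorem psd_left (κ : Measure E3) [IsFiniteMeasure κ] (ν : Measure E3) [IsFiniteMeasure ν] :
    ∫ x, ∫ y, (∫ k, Real.cos (inner ℝ k (x - y)) ∂κ) ∂ν ∂ν
      = ∫ k, (psdA ν k ^ 2 + psdB ν k ^ 2) ∂κ := by
  simp_rw [psd_st1]
  have hM0 : 0 ≤ ν.real univ := measureReal_nonneg
  have hint : Integrable (Function.uncurry fun x k : E3 => Real.cos (inner ℝ k x) * psdA ν k
      + Real.sin (inner ℝ k x) * psdB ν k) (ν.prod κ) := by
    apply psd_int _ _ (ν.real univ + ν.real univ)
    · rintro ⟨x, k⟩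
      simp only [Function.uncurry]
      refine (abs_add_le _ _).trans (add_le_add ?_ ?_)
      · rw [abs_mul]
        calc _ ≤ 1 * ν.real univ :=
              mul_le_mul (Real.abs_cos_le_one _) (psdA_le ν k) (abs_nonneg _) zero_le_one
          _ = ν.real univ := one_mul _
      · rw [abs_mul]
        calc _ ≤ 1 * ν.real univ :=
              mul_le_mul (Real.abs_sin_le_one _) (psdB_le ν k) (abs_nonneg _) zero_le_one
          _ = ν.real univ := one_mul _
    · have m1 : Measurable fun p : E3 × E3 => Real.cos (inner ℝ p.2 p.1) :=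
        psd_cosm measurable_snd measurable_fst
      have m2 : Measurable fun p : E3 × E3 => Real.sin (inner ℝ p.2 p.1) :=
        psd_sinm measurable_snd measurable_fst
      exact (m1.mul ((psdA_meas ν).comp measurable_snd)).add
        (m2.mul ((psdB_meas ν).comp measurable_snd))
  rw [integral_integral_swap hint]
  apply integral_congr_ae
  refine ae_of_all _ fun k => ?_
  simp only
  rw [integral_add ((psd_ic ν k).mul_const _) ((psd_is ν k).mul_const _), integral_mul_const,
    integral_mul_const]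
  unfold psdA psdB
  ring

section right

variable {Ω : Type*} [MeasurableSpace Ω] {N : ℕ}

private noncomputable def psdG (X : Fin N → Ω → E3) (ω : Ω) (k : E3) : ℝ :=
  (∑ i, Real.cos (inner ℝ k (X i ω))) ^ 2 + (∑ i, Real.sin (inner ℝ k (X i ω))) ^ 2

private theorem psdC_meas (X : Fin N → Ω → E3) (hX : ∀ i, Measurable (X i)) :
    Measurable fun p : Ω × E3 => ∑ i, Real.cos (inner ℝ p.2 (X i p.1)) :=
  Finset.measurable_sum _ fun i _ =>
    psd_cosm measurable_snd ((hX i).comp measurable_fst)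

private theorem psdS_meas (X : Fin N → Ω → E3) (hX : ∀ i, Measurable (X i)) :
    Measurable fun p : Ω × E3 => ∑ i, Real.sin (inner ℝ p.2 (X i p.1)) :=
  Finset.measurable_sum _ fun i _ =>
    psd_sinm measurable_snd ((hX i).comp measurable_fst)

private theorem psdC_le (X : Fin N → Ω → E3) (ω : Ω) (k : E3) :
    |∑ i, Real.cos (inner ℝ k (X i ω))| ≤ N := by
  refine (Finset.abs_sum_le_sum_abs _ _).trans ?_
  refine (Finset.sum_le_sum fun i _ => Real.abs_cos_le_one _).trans ?_
  simp

private theorem psdS_le (X : Fin N → Ω → E3) (ω : Ω) (k : E3) :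
    |∑ i, Real.sin (inner ℝ k (X i ω))| ≤ N := by
  refine (Finset.abs_sum_le_sum_abs _ _).trans ?_
  refine (Finset.sum_le_sum fun i _ => Real.abs_sin_le_one _).trans ?_
  simp

private theorem psd_sq {a c : ℝ} (ha : |a| ≤ c) : a ^ 2 ≤ c ^ 2 := by
  rw [← sq_abs]
  exact pow_le_pow_left₀ (abs_nonneg _) ha 2

private theorem psdG_meas (X : Fin N → Ω → E3) (hX : ∀ i, Measurable (X i)) :
    Measurable (Function.uncurry (psdG X)) :=
  ((psdC_meas X hX).pow_const 2).add ((psdS_meas X hX).pow_const 2)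

private theorem psdG_meas2 (X : Fin N → Ω → E3) (hX : ∀ i, Measurable (X i)) :
    Measurable (Function.uncurry fun (k : E3) (ω : Ω) => psdG X ω k) := by
  have h1 : Measurable fun p : E3 × Ω => ∑ i, Real.cos (inner ℝ p.1 (X i p.2)) :=
    Finset.measurable_sum _ fun i _ => psd_cosm measurable_fst ((hX i).comp measurable_snd)
  have h2 : Measurable fun p : E3 × Ω => ∑ i, Real.sin (inner ℝ p.1 (X i p.2)) :=
    Finset.measurable_sum _ fun i _ => psd_sinm measurable_fst ((hX i).comp measurable_snd)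
  exact (h1.pow_const 2).add (h2.pow_const 2)

private theorem psdG_le (X : Fin N → Ω → E3) (ω : Ω) (k : E3) :
    |psdG X ω k| ≤ (N : ℝ) ^ 2 + (N : ℝ) ^ 2 := by
  unfold psdG
  rw [abs_of_nonneg (add_nonneg (sq_nonneg _) (sq_nonneg _))]
  exact add_le_add (psd_sq (psdC_le X ω k)) (psd_sq (psdS_le X ω k))

private theorem psd_st2 (κ : Measure E3) [IsFiniteMeasure κ] (X : Fin N → Ω → E3) (ω : Ω) :
    ∑ i, ∑ j, (∫ k, Real.cos (inner ℝ k (X i ω - X j ω)) ∂κ) = ∫ k, psdG X ω k ∂κ := by
  have ij : ∀ i j, Integrable (fun k : E3 => Real.cos (inner ℝ k (X i ω - X j ω))) κ := by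
    intro i j
    apply psd_int κ _ 1 fun k => Real.abs_cos_le_one _
    exact psd_cosm measurable_id' measurable_const
  have e2 : ∀ k : E3, psdG X ω k = ∑ i, ∑ j, Real.cos (inner ℝ k (X i ω - X j ω)) := by
    intro k
    unfold psdG
    rw [pow_two, pow_two, Finset.sum_mul_sum, Finset.sum_mul_sum, ← Finset.sum_add_distrib]
    apply Finset.sum_congr rfl
    intro i _
    rw [← Finset.sum_add_distrib]
    apply Finset.sum_congr rfl
    intro j _
    rw [inner_sub_right, Real.cos_sub]
  simp_rw [e2]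
  rw [integral_finsetSum _ fun i _ => integrable_finsetSum _ fun j _ => ij i j]
  apply Finset.sum_congr rfl
  intro i _
  rw [integral_finsetSum _ fun j _ => ij i j]

private theorem psd_right (P : Measure Ω) [IsProbabilityMeasure P] (κ : Measure E3)
    [IsFiniteMeasure κ] (X : Fin N → Ω → E3) (hX : ∀ i, Measurable (X i)) :
    ∫ ω, ∑ i, ∑ j, (∫ k, Real.cos (inner ℝ k (X i ω - X j ω)) ∂κ) ∂P
      = ∫ k, (∫ ω, psdG X ω k ∂P) ∂κ := by
  simp_rw [psd_st2]
  have hint : Integrable (Function.uncurry (psdG X)) (P.prod κ) :=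
    psd_int _ (psdG_meas X hX) _ fun p => psdG_le X p.1 p.2
  exact integral_integral_swap hint

end right

theorem psd_cos {Ω : Type*} [MeasurableSpace Ω] (P : Measure Ω) [IsProbabilityMeasure P]
    {N : ℕ} (X : Fin N → Ω → E3) (hX : ∀ i, Measurable (X i))
    (κ : Measure E3) [IsFiniteMeasure κ] (ν : Measure E3) [IsFiniteMeasure ν]
    (hν : ∀ f : E3 → ℝ, Measurable f → (∃ C, ∀ x, |f x| ≤ C) →
      ∫ x, f x ∂ν = ∫ ω, ∑ i, f (X i ω) ∂P) :
    ∫ x, ∫ y, (∫ k, Real.cos (inner ℝ k (x - y)) ∂κ) ∂ν ∂ν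
      ≤ ∫ ω, ∑ i, ∑ j, (∫ k, Real.cos (inner ℝ k (X i ω - X j ω)) ∂κ) ∂P := by
  rw [psd_left, psd_right P κ X hX]
  apply integral_mono
  · apply psd_int κ (((psdA_meas ν).pow_const 2).add ((psdB_meas ν).pow_const 2))
      (ν.real univ ^ 2 + ν.real univ ^ 2)
    intro k
    rw [abs_of_nonneg (add_nonneg (sq_nonneg _) (sq_nonneg _))]
    exact add_le_add (psd_sq (psdA_le ν k)) (psd_sq (psdB_le ν k))
  · have h2 := psdG_meas2 X hX
    apply psd_int κ (StronglyMeasurable.integral_prod_right (ν := P)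
      (f := fun (k : E3) (ω : Ω) => psdG X ω k) h2.stronglyMeasurable).measurable
      ((N : ℝ) ^ 2 + (N : ℝ) ^ 2)
    intro k
    have := norm_integral_le_of_norm_le_const (μ := P) (C := (N : ℝ) ^ 2 + (N : ℝ) ^ 2)
      (f := fun ω => psdG X ω k) (ae_of_all _ fun ω => psdG_le X ω k)
    rw [probReal_univ, mul_one] at this
    exact this
  · intro k
    simp only
    have mc : Measurable fun ω => ∑ i, Real.cos (inner ℝ k (X i ω)) :=
      Finset.measurable_sum _ fun i _ => psd_cosm measurable_const (hX i)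
    have ms : Measurable fun ω => ∑ i, Real.sin (inner ℝ k (X i ω)) :=
      Finset.measurable_sum _ fun i _ => psd_sinm measurable_const (hX i)
    have i1 : Integrable (fun ω => (∑ i, Real.cos (inner ℝ k (X i ω))) ^ 2) P := by
      apply psd_int P (mc.pow_const 2) ((N : ℝ) ^ 2)
      intro ω
      rw [abs_of_nonneg (sq_nonneg _)]
      exact psd_sq (psdC_le X ω k)
    have i2 : Integrable (fun ω => (∑ i, Real.sin (inner ℝ k (X i ω))) ^ 2) P := by
      apply psd_int P (ms.pow_const 2) ((N : ℝ) ^ 2)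
      intro ω
      rw [abs_of_nonneg (sq_nonneg _)]
      exact psd_sq (psdS_le X ω k)
    have e3 : ∫ ω, psdG X ω k ∂P = ∫ ω, (∑ i, Real.cos (inner ℝ k (X i ω))) ^ 2 ∂P
        + ∫ ω, (∑ i, Real.sin (inner ℝ k (X i ω))) ^ 2 ∂P := integral_add i1 i2
    rw [e3]
    have hAk : psdA ν k = ∫ ω, ∑ i, Real.cos (inner ℝ k (X i ω)) ∂P :=
      hν (fun x => Real.cos (inner ℝ k x)) (psd_mc1 k) ⟨1, fun x => Real.abs_cos_le_one _⟩
    have hBk : psdB ν k = ∫ ω, ∑ i, Real.sin (inner ℝ k (X i ω)) ∂P :=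
      hν (fun x => Real.sin (inner ℝ k x)) (psd_ms1 k) ⟨1, fun x => Real.abs_sin_le_one _⟩
    rw [hAk, hBk]
    exact add_le_add (psd_sq_le P mc N fun ω => psdC_le X ω k)
      (psd_sq_le P ms N fun ω => psdS_le X ω k)

end Pool.Agent.H50.UD
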